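import Pool.Agent.V1193.FS.H

set_option autoImplicit false

/-! Final form. -/

namespace Pool.Agent.V1193.FS

open Finset Filter Topology MeasureTheory
open Pool.Agent.V1193.FM (Pr)

theorem combined {a : ℝ} (ha : 1 < a) {u v : ℝ} (huv : u < v) : ∃ C : ℝ, 0 < C ∧ ∃ M0 : ℕ,
    ∀ α : ℝ, a ≤ α →
      (∀ J : Finset ℕ, (∀ m ∈ J, M0 ≤ m) →
        volume.real {y ∈ Set.Ioc u v | ∀ m ∈ J, m ∈ Pr α (Real.exp y)} ≤
          (v - u) * ∏ m ∈ J, (C * (((m : ℝ) + 1) / 2 ^ m))) ∧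
      (∀ M ≥ M0, ∀ k : ℕ,
        volume.real {y ∈ Set.Ioc u v | (k : ℕ∞) ≤ (Pr α (Real.exp y) ∩ Set.Ici M).encard} ≤
          (v - u) * ((C * (((M : ℝ) + 1) / 2 ^ M)) ^ k / k.factorial)) ∧
      (∀ M ≥ M0, ∀ r : ℝ, 1 ≤ r →
        IntegrableOn (fun y => r ^ (Pr α (Real.exp y) ∩ Set.Ici M).ncard) (Set.Ioc u v) ∧
        ∫ y in Set.Ioc u v, r ^ (Pr α (Real.exp y) ∩ Set.Ici M).ncard ≤
          (v - u) * Real.exp (C * r * (((M : ℝ) + 1) / 2 ^ M))) := by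
  have hx0 : 0 < Real.log a := Real.log_pos ha
  obtain ⟨C1, hC1, M1, h1⟩ := corr_set hx0 huv
  obtain ⟨C2, hC2, M2, h2⟩ := tails hx0 huv
  obtain ⟨C3, hC3, M3, h3⟩ := moments hx0 huv
  have hvu : 0 ≤ v - u := by linarith
  refine ⟨max C1 (max C2 C3), lt_of_lt_of_le (by linarith) (le_max_left _ _),
    max M1 (max M2 M3), fun α hα => ?_⟩
  obtain ⟨x, hx, rfl⟩ : ∃ x, Real.log a ≤ x ∧ α = Real.exp x :=
    ⟨Real.log α, Real.log_le_log (by linarith) hα, (Real.exp_log (by linarith)).symm⟩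
  have hM : ∀ M, max M1 (max M2 M3) ≤ M → M1 ≤ M ∧ M2 ≤ M ∧ M3 ≤ M := fun M hM => by
    have e1 := le_max_left M1 (max M2 M3)
    have e2 := (le_max_left M2 M3).trans (le_max_right M1 (max M2 M3))
    have e3 := (le_max_right M2 M3).trans (le_max_right M1 (max M2 M3))
    omega
  refine ⟨fun J hJ => ?_, fun M hM' k => ?_, fun M hM' r hr => ?_⟩
  · refine (h1 x hx J fun m hm => (hM m (hJ m hm)).1).trans ?_
    refine mul_le_mul_of_nonneg_left ?_ hvu
    refine Finset.prod_le_prod (fun m _ => ?_) fun m _ => ?_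
    · exact mul_nonneg (by linarith) (w_pos m).le
    · exact mul_le_mul_of_nonneg_right (le_max_left _ _) (w_pos m).le
  · refine (h2 x hx M (hM M hM').2.1 k).trans ?_
    refine mul_le_mul_of_nonneg_left ?_ hvu
    refine div_le_div_of_nonneg_right ?_ (by positivity)
    refine pow_le_pow_left₀ (mul_nonneg hC2.le (w_pos M).le) ?_ k
    exact mul_le_mul_of_nonneg_right ((le_max_left _ _).trans (le_max_right _ _)) (w_pos M).le
  · obtain ⟨h4, h5⟩ := h3 x hx r hr M (hM M hM').2.2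
    refine ⟨h4, h5.trans ?_⟩
    refine mul_le_mul_of_nonneg_left (Real.exp_le_exp.2 ?_) hvu
    refine mul_le_mul_of_nonneg_right (mul_le_mul_of_nonneg_right ?_ (by linarith)) (w_pos M).le
    exact (le_max_right _ _).trans (le_max_right _ _)

theorem full {α : ℝ} (hα : 1 < α) {u v : ℝ} (huv : u < v) {r : ℝ} (hr : 1 ≤ r) :
    IntegrableOn (fun y => r ^ (Pr α (Real.exp y)).ncard) (Set.Ioc u v) := by
  obtain ⟨x, hx, rfl⟩ : ∃ x, 0 < x ∧ α = Real.exp x :=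
    ⟨Real.log α, Real.log_pos hα, (Real.exp_log (by linarith)).symm⟩
  exact full_moment hx huv hr

end Pool.Agent.V1193.FS
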