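import Pool.Agent.V1193.FM.H

set_option autoImplicit false

/-! Exponential moments of the number of indices. -/

namespace Pool.Agent.V1193.FS

open Finset Filter Topology MeasureTheory
open Pool.Agent.H305R2 (NN roughPart measurable_NN ff ff_nonneg ff_le_one integrableOn_ff
  mem_Ioc_log)
open Pool.Agent.V1193.FM

/-- the indicator of the index `m` at `exp y` -/
noncomputable def fm (x : ℝ) (m : ℕ) (y : ℝ) : ℝ := g (2 ^ (m + 1)) (y + 2 ^ m * x)

lemma fm_nonneg (x : ℝ) (m : ℕ) (y : ℝ) : 0 ≤ fm x m y := g_nonneg _ _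

lemma fm_le_one (x : ℝ) (m : ℕ) (y : ℝ) : fm x m y ≤ 1 := g_le_one _ _

lemma measurable_fm (x : ℝ) (m : ℕ) : Measurable (fm x m) :=
  (measurable_g _).comp (measurable_id.add_const _)

/-- the product over `j` consecutive indices -/
noncomputable def Ph (x : ℝ) (z : ℕ → ℝ) (M j : ℕ) (y : ℝ) : ℝ :=
  ∏ i ∈ range j, (1 + z (M + i) * fm x (M + i) y)

lemma measurable_Ph (x : ℝ) (z : ℕ → ℝ) (M j : ℕ) : Measurable (Ph x z M j) :=
  Finset.measurable_prod _ fun i _ => (((measurable_fm x (M + i)).const_mul (z (M + i))).const_add 1)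

lemma Ph_nonneg (x : ℝ) {z : ℕ → ℝ} (hz : ∀ m, 0 ≤ z m) (M j : ℕ) (y : ℝ) : 0 ≤ Ph x z M j y :=
  Finset.prod_nonneg fun i _ => by
    have := mul_nonneg (hz (M + i)) (fm_nonneg x (M + i) y)
    linarith

lemma Ph_le (x : ℝ) {z : ℕ → ℝ} (hz : ∀ m, 0 ≤ z m) (M j : ℕ) (y : ℝ) :
    Ph x z M j y ≤ ∏ i ∈ range j, (1 + z (M + i)) := by
  unfold Ph
  refine Finset.prod_le_prod (fun i _ => ?_) fun i _ => ?_
  · have := mul_nonneg (hz (M + i)) (fm_nonneg x (M + i) y)
    linarith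
  · have := mul_le_mul_of_nonneg_left (fm_le_one x (M + i) y) (hz (M + i))
    linarith

lemma integrableOn_Ph (x : ℝ) {z : ℕ → ℝ} (hz : ∀ m, 0 ≤ z m) (M j : ℕ) (a b : ℝ) :
    IntegrableOn (Ph x z M j) (Set.Ioc a b) := by
  refine Measure.integrableOn_of_bounded (M := ∏ i ∈ range j, (1 + z (M + i))) (by simp)
    (measurable_Ph x z M j).aestronglyMeasurable (Eventually.of_forall fun y => ?_)
  rw [Real.norm_of_nonneg (Ph_nonneg x hz M j y)]
  exact Ph_le x hz M j y

lemma Ph_succ (x : ℝ) (z : ℕ → ℝ) (M j : ℕ) (y : ℝ) :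
    Ph x z M (j + 1) y = (1 + z M * fm x M y) * Ph x z (M + 1) j y := by
  unfold Ph
  rw [Finset.prod_range_succ', add_zero, mul_comm]
  congr 1
  refine Finset.prod_congr rfl fun i _ => ?_
  rw [show M + (i + 1) = M + 1 + i by omega]

/-- one step of the induction: from the cells of level `M` to an interval -/
lemma step {x A s h : ℝ} {z : ℕ → ℝ} {M j : ℕ} (hz : ∀ m, 0 ≤ z m) (hs : 0 ≤ s + 2 ^ M * x)
    (hh : 0 ≤ h)
    (hcell : ∀ N : ℕ, 1 ≤ N → s + 2 ^ M * x ≤ Real.log ((N + 1 : ℕ) : ℝ) →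
      ∫ y in Set.Ioc (Real.log N - 2 ^ M * x) (Real.log ((N + 1 : ℕ) : ℝ) - 2 ^ M * x),
        Ph x z (M + 1) j y ≤ A * (Real.log ((N + 1 : ℕ) : ℝ) - Real.log N)) :
    ∃ a b : ℝ, a ≤ s ∧ s + h ≤ b ∧ s - 2 * Real.exp (-(s + 2 ^ M * x)) ≤ a ∧
      b ≤ s + h + Real.exp (-(s + 2 ^ M * x)) ∧
      ∫ y in Set.Ioc s (s + h), Ph x z M (j + 1) y ≤
        A * ∫ y in Set.Ioc a b, (1 + z M * fm x M y) := by
  set X := 2 ^ M * x with hX
  set E := Real.exp (s + X) with hE
  set E' := Real.exp (s + h + X) with hE'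
  have hE1 : 1 ≤ E := Real.one_le_exp hs
  have hEE : E ≤ E' := Real.exp_le_exp.2 (by linarith)
  set N0 := ⌊E⌋₊ with hN0
  set N1 := ⌊E'⌋₊ with hN1
  have hN0p : 1 ≤ N0 := Nat.floor_pos.2 hE1
  have hN01 : N0 ≤ N1 := Nat.floor_mono hEE
  have hN0r : (1 : ℝ) ≤ N0 := by exact_mod_cast hN0p
  have hN1r : (1 : ℝ) ≤ N1 := by exact_mod_cast hN0p.trans hN01
  have hN0le : (N0 : ℝ) ≤ E := Nat.floor_le (by linarith)
  have hN0gt : E < N0 + 1 := Nat.lt_floor_add_one E
  have hN1le : (N1 : ℝ) ≤ E' := Nat.floor_le (by linarith)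
  have hN1gt : E' < N1 + 1 := Nat.lt_floor_add_one E'
  have hexpneg : Real.exp (-(s + X)) = 1 / E := by rw [Real.exp_neg, hE, one_div]
  have ha : Real.log N0 ≤ s + X := by
    rw [Real.log_le_iff_le_exp (by linarith)]; exact hN0le
  have hb : s + h + X ≤ Real.log ((N1 + 1 : ℕ) : ℝ) := by
    rw [Real.le_log_iff_exp_le (by positivity)]
    push_cast
    exact hN1gt.le
  have ha' : s + X - 2 / E ≤ Real.log N0 := by
    have h1 : s + X - Real.log N0 = Real.log (E / N0) := by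
      rw [Real.log_div (by linarith) (by linarith), hE, Real.log_exp]
    have h2 : Real.log (E / N0) ≤ E / N0 - 1 := Real.log_le_sub_one_of_pos (by positivity)
    have h3 : E / N0 - 1 ≤ 2 / E := by
      rw [div_sub_one (by linarith), div_le_div_iff₀ (by linarith) (by linarith)]
      nlinarith
    linarith
  have hb' : Real.log ((N1 + 1 : ℕ) : ℝ) ≤ s + h + X + 1 / E := by
    have h1 : Real.log ((N1 + 1 : ℕ) : ℝ) - (s + h + X) =
        Real.log (((N1 + 1 : ℕ) : ℝ) / E') := by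
      rw [Real.log_div (by positivity) (by linarith), hE', Real.log_exp]
    have h2 : Real.log (((N1 + 1 : ℕ) : ℝ) / E') ≤ ((N1 + 1 : ℕ) : ℝ) / E' - 1 :=
      Real.log_le_sub_one_of_pos (by positivity)
    have h3 : ((N1 + 1 : ℕ) : ℝ) / E' - 1 ≤ 1 / E := by
      push_cast
      rw [div_sub_one (by linarith), div_le_div_iff₀ (by linarith) (by linarith)]
      nlinarith
    linarith
  refine ⟨Real.log N0 - X, Real.log ((N1 + 1 : ℕ) : ℝ) - X, by linarith, by linarith, ?_, ?_, ?_⟩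
  · rw [hexpneg]
    have : 2 * (1 / E) = 2 / E := by ring
    linarith
  · rw [hexpneg]; linarith
  -- the integral
  have hbig : ∫ y in Set.Ioc s (s + h), Ph x z M (j + 1) y ≤
      ∫ y in Set.Ioc (Real.log N0 - X) (Real.log ((N1 + 1 : ℕ) : ℝ) - X), Ph x z M (j + 1) y := by
    refine setIntegral_mono_set (integrableOn_Ph x hz _ _ _ _) ?_ ?_
    · exact Eventually.of_forall fun y => Ph_nonneg x hz _ _ _
    · exact (Set.Ioc_subset_Ioc (by linarith) (by linarith)).eventuallyLE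
  refine hbig.trans ?_
  have hmon : ∀ N : ℕ, N0 ≤ N → Real.log (N : ℝ) - X ≤ Real.log ((N + 1 : ℕ) : ℝ) - X := by
    intro N hN
    have : (N0 : ℝ) ≤ N := by exact_mod_cast hN
    have := Real.log_le_log (show (0 : ℝ) < N by linarith)
      (show (N : ℝ) ≤ ((N + 1 : ℕ) : ℝ) by push_cast; linarith)
    linarith
  have hiF : ∀ c d : ℝ, IntegrableOn (fun y => 1 + z M * fm x M y) (Set.Ioc c d) := by
    intro c d
    refine Measure.integrableOn_of_bounded (M := 1 + z M) (by simp)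
      (((measurable_fm x M).const_mul (z M)).const_add 1).aestronglyMeasurable
      (Eventually.of_forall fun y => ?_)
    have h1 := mul_nonneg (hz M) (fm_nonneg x M y)
    have h2 := mul_le_mul_of_nonneg_left (fm_le_one x M y) (hz M)
    rw [Real.norm_of_nonneg (by linarith)]
    linarith
  have hiiG : ∀ N ∈ Set.Ico N0 (N1 + 1), IntervalIntegrable (fun y => Ph x z M (j + 1) y) volume
      (Real.log (N : ℝ) - X) (Real.log ((N + 1 : ℕ) : ℝ) - X) := by
    intro N hN
    rw [intervalIntegrable_iff_integrableOn_Ioc_of_le (hmon N hN.1)]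
    exact integrableOn_Ph x hz _ _ _ _
  have hiiF : ∀ N ∈ Set.Ico N0 (N1 + 1), IntervalIntegrable (fun y => 1 + z M * fm x M y) volume
      (Real.log (N : ℝ) - X) (Real.log ((N + 1 : ℕ) : ℝ) - X) := by
    intro N hN
    rw [intervalIntegrable_iff_integrableOn_Ioc_of_le (hmon N hN.1)]
    exact hiF _ _
  have hsumG := intervalIntegral.sum_integral_adjacent_intervals_Ico
    (a := fun N : ℕ => Real.log (N : ℝ) - X) (m := N0) (n := N1 + 1) (by omega) hiiG
  have hsumF := intervalIntegral.sum_integral_adjacent_intervals_Ico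
    (a := fun N : ℕ => Real.log (N : ℝ) - X) (m := N0) (n := N1 + 1) (by omega) hiiF
  have h01 : Real.log (N0 : ℝ) - X ≤ Real.log ((N1 + 1 : ℕ) : ℝ) - X := by linarith
  rw [intervalIntegral.integral_of_le h01] at hsumG hsumF
  rw [← hsumG, ← hsumF, Finset.mul_sum]
  refine Finset.sum_le_sum fun N hN => ?_
  rw [Finset.mem_Ico] at hN
  have hNp : 1 ≤ N := hN0p.trans hN.1
  rw [intervalIntegral.integral_of_le (hmon N hN.1), intervalIntegral.integral_of_le (hmon N hN.1)]
  set a : ℝ := if (roughPart (2 ^ (M + 1)) (N + 1)).Prime then 1 else 0 with had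
  have ha0 : 0 ≤ a := by rw [had]; split_ifs <;> norm_num
  have hval : ∀ y ∈ Set.Ioc (Real.log (N : ℝ) - X) (Real.log ((N + 1 : ℕ) : ℝ) - X),
      fm x M y = a := by
    intro y hy
    exact g_val hNp ⟨by linarith [hy.1], by linarith [hy.2]⟩ _
  have e3 : ∫ y in Set.Ioc (Real.log (N : ℝ) - X) (Real.log ((N + 1 : ℕ) : ℝ) - X),
      Ph x z M (j + 1) y = (1 + z M * a) *
      ∫ y in Set.Ioc (Real.log (N : ℝ) - X) (Real.log ((N + 1 : ℕ) : ℝ) - X),
        Ph x z (M + 1) j y := by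
    rw [← integral_const_mul]
    exact setIntegral_congr_fun measurableSet_Ioc fun y hy => by
      simp only [Ph_succ, hval y hy]
  have e4 : ∫ y in Set.Ioc (Real.log (N : ℝ) - X) (Real.log ((N + 1 : ℕ) : ℝ) - X),
      (1 + z M * fm x M y) = (1 + z M * a) * (Real.log ((N + 1 : ℕ) : ℝ) - Real.log N) := by
    have : ∫ y in Set.Ioc (Real.log (N : ℝ) - X) (Real.log ((N + 1 : ℕ) : ℝ) - X),
        (1 + z M * fm x M y) = ∫ y in Set.Ioc (Real.log (N : ℝ) - X)
          (Real.log ((N + 1 : ℕ) : ℝ) - X), (1 + z M * a) :=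
      setIntegral_congr_fun measurableSet_Ioc fun y hy => by simp only [hval y hy]
    rw [this, setIntegral_const, smul_eq_mul, Real.volume_real_Ioc_of_le (hmon N hN.1)]
    ring
  rw [e3, e4]
  have hNlog : s + X ≤ Real.log ((N + 1 : ℕ) : ℝ) := by
    rw [Real.le_log_iff_exp_le (by positivity)]
    have : (N0 : ℝ) ≤ N := by exact_mod_cast hN.1
    push_cast
    linarith
  have h7 := hcell N hNp hNlog
  have h8 : 0 ≤ 1 + z M * a := by have := mul_nonneg (hz M) ha0; linarith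
  calc _ ≤ (1 + z M * a) * (A * (Real.log ((N + 1 : ℕ) : ℝ) - Real.log N)) :=
        mul_le_mul_of_nonneg_left h7 h8
    _ = _ := by ring

end Pool.Agent.V1193.FS
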