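import Pool.Agent.V1193.FS.A

set_option autoImplicit false

/-! The induction over the levels. -/

namespace Pool.Agent.V1193.FS

open Finset Filter Topology MeasureTheory
open Pool.Agent.H305R2 (NN roughPart measurable_NN ff ff_nonneg ff_le_one integrableOn_ff
  mem_Ioc_log)
open Pool.Agent.V1193.FM

/-- the weights -/
noncomputable def w (m : ℕ) : ℝ := ((m : ℝ) + 1) / 2 ^ m

lemma w_pos (m : ℕ) : 0 < w m := by unfold w; positivity

/-- the bound on one level, for short intervals -/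
lemma single {x0 : ℝ} (hx0 : 0 < x0) : ∃ K : ℝ, 0 < K ∧ ∃ M0 : ℕ, ∀ x : ℝ, x0 ≤ x → ∀ M ≥ M0,
    Real.log 3 ≤ 2 ^ M * x / 4 ∧
    ∀ s h : ℝ, 0 < h → h ≤ 1 / 2 → 2 ^ M * x / 4 ≤ s + 2 ^ M * x + Real.log h →
    ∀ a b : ℝ, a ≤ s → s + h ≤ b → s - 2 * Real.exp (-(s + 2 ^ M * x)) ≤ a →
      b ≤ s + h + Real.exp (-(s + 2 ^ M * x)) →
      b - a ≤ h * (1 + w M) ∧ ∫ y in Set.Ioc a b, fm x M y ≤ K * w M * h := by
  obtain ⟨K1, hK1, hev⟩ := Pool.Agent.H447R2.ML.short_interval
  refine ⟨16 * K1 / x0 + 2, by positivity, ?_⟩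
  have h1 := (exp_small (show 0 < x0 / 8 by positivity)).eventually_le_const
    (show (0 : ℝ) < 1 / 6 by norm_num)
  have hlog2 : ∀ᶠ q : ℕ in atTop, (Real.log q) ^ 2 ≤ x0 / 512 * q := by
    have h := (Real.isLittleO_pow_log_id_atTop (n := 2)).bound (show 0 < x0 / 512 by positivity)
    have h' := tendsto_natCast_atTop_atTop (R := ℝ) |>.eventually h
    filter_upwards [h'] with q hq
    simp only [id, norm_pow, Real.norm_eq_abs, sq_abs, Nat.abs_cast] at hq
    exact hq
  have hlarge : ∀ᶠ q : ℕ in atTop, 32 / x0 < (q : ℝ) :=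
    tendsto_natCast_atTop_atTop.eventually_gt_atTop _
  obtain ⟨Q, hQ⟩ := eventually_atTop.1 (hev.and (h1.and (hlog2.and hlarge)))
  obtain ⟨M0, hM0⟩ := eventually_atTop.1 (tendsto_P.eventually_ge_atTop (max Q 3))
  refine ⟨M0, fun x hx M hM => ?_⟩
  have hqQ := hM0 M hM
  set q := 2 ^ (M + 1) with hq
  obtain ⟨hsi, hexp, hlq, hql⟩ := hQ q ((le_max_left _ _).trans hqQ)
  have hq3 : (3 : ℝ) ≤ q := by exact_mod_cast (le_max_right _ _).trans hqQ
  have hq0 : (0 : ℝ) < q := by linarith
  have hqcast : (q : ℝ) = 2 * 2 ^ M := by rw [hq]; push_cast; rw [pow_succ]; ring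
  have hpow : (0 : ℝ) < 2 ^ M := by positivity
  have hx' : 0 < x := lt_of_lt_of_le hx0 hx
  have hX : 2 ^ M * x0 ≤ 2 ^ M * x := mul_le_mul_of_nonneg_left hx hpow.le
  have hXq : x0 * q = 2 * (2 ^ M * x0) := by rw [hqcast]; ring
  have h32 : 32 ≤ x0 * q := by
    rw [div_lt_iff₀ hx0] at hql
    linarith
  have hX16 : 16 ≤ 2 ^ M * x := by linarith
  have hlogq : Real.log q = ((M : ℝ) + 1) * Real.log 2 := by
    rw [hq]; push_cast; rw [Real.log_pow]; push_cast; ring
  have hlogq1 : 1 ≤ Real.log q := by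
    rw [Real.le_log_iff_exp_le hq0]
    have := Real.exp_one_lt_d9
    linarith
  have hl3 : Real.log 3 ≤ 2 := by
    have := Real.log_le_sub_one_of_pos (show (0 : ℝ) < 3 by norm_num)
    linarith
  refine ⟨by linarith, fun s h hh hh2 hc a b ha hb ha' hb' => ?_⟩
  set X := 2 ^ M * x with hXd
  set δ := Real.exp (-(s + X)) with hδ
  have hδ0 : 0 < δ := Real.exp_pos _
  -- `δ ≤ h exp (- X / 4)`
  have hδh : δ ≤ h * Real.exp (-(X / 4)) := by
    have : h * Real.exp (-(X / 4)) = Real.exp (Real.log h + -(X / 4)) := by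
      rw [Real.exp_add, Real.exp_log hh]
    rw [this, hδ]
    exact Real.exp_le_exp.2 (by linarith)
  have hE : Real.exp (-(X / 4)) ≤ 1 / 6 / (q : ℝ) ^ 2 := by
    rw [le_div_iff₀ (by positivity), mul_comm]
    refine le_trans ?_ hexp
    refine mul_le_mul_of_nonneg_left (Real.exp_le_exp.2 ?_) (by positivity)
    have : x0 / 8 * q = 2 ^ M * x0 / 4 := by rw [hqcast]; ring
    linarith
  have hwM : 1 / (q : ℝ) ^ 2 ≤ w M := by
    unfold w
    rw [hqcast, div_le_div_iff₀ (by positivity) hpow]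
    have h1 : (1 : ℝ) ≤ 2 ^ M := one_le_pow₀ (by norm_num)
    have h2 : (1 : ℝ) ≤ (M : ℝ) + 1 := by
      have : (0 : ℝ) ≤ M := Nat.cast_nonneg M
      linarith
    nlinarith [mul_pos hpow hpow]
  have hEw : 6 * Real.exp (-(X / 4)) ≤ w M := by
    have : 1 / 6 / (q : ℝ) ^ 2 = (1 / (q : ℝ) ^ 2) / 6 := by ring
    linarith
  have hδw : 6 * δ ≤ h * w M := by
    calc 6 * δ ≤ h * (6 * Real.exp (-(X / 4))) := by linarith
      _ ≤ h * w M := mul_le_mul_of_nonneg_left hEw hh.le
  have hδsmall : δ ≤ 1 / 12 := by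
    have h2 : (9 : ℝ) ≤ (q : ℝ) ^ 2 := by nlinarith
    have h3 : 1 / 6 / (q : ℝ) ^ 2 ≤ 1 / 6 := div_le_self (by norm_num) (by linarith)
    nlinarith
  have hlen : b - a ≤ h * (1 + w M) := by nlinarith
  refine ⟨hlen, ?_⟩
  have hab : a ≤ b := by linarith
  have hl0 : 0 < b - a := by linarith
  have hlenh : h ≤ b - a := by linarith
  have hl1 : b - a ≤ 1 := by linarith
  have e1 : ∫ y in Set.Ioc a b, fm x M y = ∫ t in Set.Ioc (a + X) (a + X + (b - a)), g q t := by
    unfold fm
    rw [← intervalIntegral.integral_of_le hab, ← intervalIntegral.integral_of_le (by linarith),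
      intervalIntegral.integral_comp_add_right (fun t => g q t) X]
    congr 1
    ring
  rw [e1]
  have h3 := (abs_le.1 (compare q (show a + X ≤ a + X + (b - a) by linarith))).2
  have h9 : Real.exp (-(a + X)) ≤ 3 * δ := by
    have h10 : Real.exp (-(a + X)) ≤ Real.exp (-(s + X) + 2 * δ) := Real.exp_le_exp.2 (by linarith)
    rw [Real.exp_add] at h10
    have h11 : Real.exp (2 * δ) ≤ 3 := by
      have h12 : Real.exp (2 * δ) ≤ Real.exp 1 := Real.exp_le_exp.2 (by linarith)
      have := Real.exp_one_lt_d9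
      linarith
    calc Real.exp (-(a + X)) ≤ δ * Real.exp (2 * δ) := h10
      _ ≤ δ * 3 := mul_le_mul_of_nonneg_left h11 hδ0.le
      _ = 3 * δ := by ring
  have hlogl : Real.log h ≤ Real.log (b - a) := Real.log_le_log hh hlenh
  have hU : X / 8 ≤ a + X + Real.log (b - a) := by linarith
  have hcond : 32 * (Real.log q * Real.log (Real.log q)) ≤ a + X + Real.log (b - a) := by
    refine le_trans ?_ hU
    have h7 : Real.log (Real.log q) ≤ Real.log q := by
      have := Real.log_le_sub_one_of_pos (show 0 < Real.log q by linarith)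
      linarith
    have h8 : Real.log q * Real.log (Real.log q) ≤ (Real.log q) ^ 2 := by
      rw [sq]; exact mul_le_mul_of_nonneg_left h7 (by linarith)
    have h9' : x0 / 512 * q * 32 = 2 ^ M * x0 / 8 := by rw [hqcast]; ring
    linarith
  have h4 := hsi (a + X) (b - a) hl0 hl1 hcond
  have h5 : Real.log q / (a + X + Real.log (b - a)) ≤ 8 / x0 * w M := by
    have h6 : Real.log q / (a + X + Real.log (b - a)) ≤ Real.log q / (X / 8) :=
      div_le_div_of_nonneg_left (by linarith) (by positivity) hU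
    have h7 : Real.log q / (X / 8) ≤ ((M : ℝ) + 1) / (2 ^ M * x0 / 8) := by
      rw [hlogq]
      have hl2 := Real.log_two_lt_d9
      have hl2' := Real.log_two_gt_d9
      have hM1 : (0 : ℝ) < (M : ℝ) + 1 := by positivity
      refine div_le_div₀ hM1.le ?_ (by positivity) (by linarith)
      nlinarith
    have h8 : ((M : ℝ) + 1) / (2 ^ M * x0 / 8) = 8 / x0 * w M := by
      unfold w
      field_simp
    linarith
  have hw := w_pos M
  have hw2 : b - a ≤ 2 * h ∨ 1 < w M := by
    rcases le_or_gt (w M) 1 with h12 | h12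
    · left; nlinarith
    · right; exact h12
  have hb2 : b - a ≤ 2 * h := by
    have : 3 * δ ≤ h := by
      have h6 : Real.exp (-(X / 4)) ≤ 1 / 6 := by
        have h2 : (1 : ℝ) ≤ (q : ℝ) ^ 2 := by nlinarith
        exact hE.trans (div_le_self (by norm_num) h2)
      nlinarith
    linarith
  have h15 : K1 * (b - a) * (Real.log q / (a + X + Real.log (b - a))) ≤
      K1 * (2 * h) * (8 / x0 * w M) := by
    refine mul_le_mul (mul_le_mul_of_nonneg_left hb2 hK1.le) h5 ?_ (by positivity)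
    exact div_nonneg (by linarith) (by linarith)
  calc ∫ t in Set.Ioc (a + X) (a + X + (b - a)), g q t ≤
      K1 * (2 * h) * (8 / x0 * w M) + 2 * (3 * δ) := by linarith
    _ ≤ K1 * (2 * h) * (8 / x0 * w M) + h * w M := by linarith
    _ ≤ (16 * K1 / x0 + 2) * w M * h := by
      have : K1 * (2 * h) * (8 / x0 * w M) = 16 * K1 / x0 * w M * h := by ring
      rw [this]
      nlinarith [mul_pos hw hh]

/-- the product of the bounds -/
noncomputable def Pb (K : ℝ) (z : ℕ → ℝ) (M j : ℕ) : ℝ :=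
  ∏ i ∈ range j, (1 + (z (M + i) * K + 1) * w (M + i))

lemma Pb_succ (K : ℝ) (z : ℕ → ℝ) (M j : ℕ) :
    Pb K z M (j + 1) = (1 + (z M * K + 1) * w M) * Pb K z (M + 1) j := by
  unfold Pb
  rw [Finset.prod_range_succ', add_zero, mul_comm]
  congr 1
  refine Finset.prod_congr rfl fun i _ => ?_
  rw [show M + (i + 1) = M + 1 + i by omega]

lemma Pb_nonneg {K : ℝ} {z : ℕ → ℝ} (hK : 0 ≤ K) (hz : ∀ m, 0 ≤ z m) (M j : ℕ) :
    0 ≤ Pb K z M j :=
  Finset.prod_nonneg fun i _ => by
    have h1 := mul_nonneg (hz (M + i)) hK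
    have := mul_nonneg (show 0 ≤ z (M + i) * K + 1 by linarith) (w_pos (M + i)).le
    linarith

/-- the induction over the levels -/
theorem main {x0 : ℝ} (hx0 : 0 < x0) : ∃ K : ℝ, 0 < K ∧ ∃ M0 : ℕ, ∀ x : ℝ, x0 ≤ x →
    ∀ z : ℕ → ℝ, (∀ m, 0 ≤ z m) → ∀ j : ℕ, ∀ M ≥ M0,
    ∀ s h : ℝ, 0 < h → h ≤ 1 / 2 → 2 ^ M * x / 4 ≤ s + 2 ^ M * x + Real.log h →
      ∫ y in Set.Ioc s (s + h), Ph x z M j y ≤ Pb K z M j * h := by
  obtain ⟨K, hK, M0, hsingle⟩ := single hx0
  refine ⟨K, hK, M0, fun x hx z hz j => ?_⟩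
  have hx' : 0 < x := lt_of_lt_of_le hx0 hx
  induction j with
  | zero =>
    intro M hM s h hh hh2 hc
    unfold Ph Pb
    simp only [Finset.range_zero, Finset.prod_empty]
    rw [setIntegral_const, smul_eq_mul, Real.volume_real_Ioc_of_le (by linarith)]
    linarith
  | succ j ih =>
    intro M hM s h hh hh2 hc
    obtain ⟨hl3, hsg⟩ := hsingle x hx M hM
    have hpow : (0 : ℝ) < 2 ^ M := by positivity
    have hlogh : Real.log h ≤ 0 := Real.log_nonpos hh.le (by linarith)
    have hl30 : 0 < Real.log 3 := Real.log_pos (by norm_num)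
    have hs0 : Real.log 3 ≤ s + 2 ^ M * x := by linarith
    obtain ⟨a, b, h1, h2, h3, h4, h5⟩ := step (x := x) (z := z) (A := Pb K z (M + 1) j)
      (s := s) (h := h) (M := M) (j := j) hz (by linarith) hh.le (by
        intro N hN hNs
        have hN3 : (3 : ℝ) ≤ ((N + 1 : ℕ) : ℝ) := by
          have := hs0.trans hNs
          exact (Real.log_le_log_iff (by norm_num) (by positivity)).1 this
        have hN2 : (2 : ℝ) ≤ N := by push_cast at hN3; linarith
        obtain ⟨hs1, hs2⟩ := log_step hN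
        set h' := Real.log ((N + 1 : ℕ) : ℝ) - Real.log N with hh'
        have hh'0 : 0 < h' := lt_of_lt_of_le (by positivity) hs1
        have hh'2 : h' ≤ 1 / 2 := by
          have h6 := Real.log_le_sub_one_of_pos
            (show (0 : ℝ) < ((N + 1 : ℕ) : ℝ) / N by positivity)
          rw [Real.log_div (by positivity) (by linarith)] at h6
          have h7 : ((N + 1 : ℕ) : ℝ) / N - 1 = 1 / (N : ℝ) := by push_cast; field_simp; ring
          have h8 : 1 / (N : ℝ) ≤ 1 / 2 := one_div_le_one_div_of_le (by norm_num) hN2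
          linarith
        have h9 := ih (M + 1) (by omega) (Real.log N - 2 ^ M * x) h' hh'0 hh'2 (by
          have h6 : Real.log (1 / (2 * (N : ℝ))) ≤ Real.log h' :=
            Real.log_le_log (by positivity) hs1
          rw [one_div, Real.log_inv, Real.log_mul (by norm_num) (by linarith)] at h6
          have h7 : Real.log 2 ≤ Real.log 3 := Real.log_le_log (by norm_num) (by norm_num)
          rw [pow_succ]
          linarith)
        have e : Real.log (N : ℝ) - 2 ^ M * x + h' = Real.log ((N + 1 : ℕ) : ℝ) - 2 ^ M * x := by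
          rw [hh']; ring
        rw [e] at h9
        exact h9)
    obtain ⟨h6, h7⟩ := hsg s h hh hh2 hc a b h1 h2 h3 h4
    have hab : a ≤ b := by linarith
    have hi : IntegrableOn (fm x M) (Set.Ioc a b) := by
      refine Measure.integrableOn_of_bounded (M := 1) (by simp)
        (measurable_fm x M).aestronglyMeasurable (Eventually.of_forall fun y => ?_)
      rw [Real.norm_of_nonneg (fm_nonneg x M y)]
      exact fm_le_one x M y
    have e1 : ∫ y in Set.Ioc a b, (1 + z M * fm x M y) =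
        (b - a) + z M * ∫ y in Set.Ioc a b, fm x M y := by
      rw [integral_add (integrable_const _) (hi.const_mul (z M)), integral_const_mul,
        setIntegral_const, smul_eq_mul, Real.volume_real_Ioc_of_le hab, mul_one]
    rw [e1] at h5
    rw [Pb_succ]
    have hA := Pb_nonneg hK.le hz (M + 1) j
    have h8 : z M * ∫ y in Set.Ioc a b, fm x M y ≤ z M * (K * w M * h) :=
      mul_le_mul_of_nonneg_left h7 (hz M)
    calc _ ≤ Pb K z (M + 1) j * ((b - a) + z M * ∫ y in Set.Ioc a b, fm x M y) := h5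
      _ ≤ Pb K z (M + 1) j * (h * (1 + w M) + z M * (K * w M * h)) :=
        mul_le_mul_of_nonneg_left (by linarith) hA
      _ = _ := by ring

end Pool.Agent.V1193.FS
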