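import Pool.Agent.V1193.FS.B

set_option autoImplicit false

/-! Windows; exponential moments; many indices. -/

namespace Pool.Agent.V1193.FS

open Finset Filter Topology MeasureTheory
open Pool.Agent.H305R2 (NN roughPart measurable_NN ff ff_nonneg ff_le_one integrableOn_ff
  mem_Ioc_log)
open Pool.Agent.V1193.FM

/-- windows of arbitrary length -/
theorem window {x0 : ℝ} (hx0 : 0 < x0) {u v : ℝ} (huv : u < v) : ∃ K : ℝ, 0 < K ∧ ∃ M0 : ℕ,
    ∀ x : ℝ, x0 ≤ x → ∀ z : ℕ → ℝ, (∀ m, 0 ≤ z m) → ∀ j : ℕ, ∀ M ≥ M0,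
      ∫ y in Set.Ioc u v, Ph x z M j y ≤ Pb K z M j * (v - u) := by
  obtain ⟨K, hK, M1, hmain⟩ := main hx0
  set n := ⌈2 * (v - u)⌉₊ with hn
  have hn0 : 0 < n := Nat.ceil_pos.2 (by linarith)
  have hn0' : (0 : ℝ) < n := by exact_mod_cast hn0
  set h0 := (v - u) / n with hh0
  have hh0p : 0 < h0 := div_pos (by linarith) hn0'
  have hh02 : h0 ≤ 1 / 2 := by
    rw [hh0, div_le_iff₀ hn0']
    have := Nat.le_ceil (2 * (v - u))
    linarith
  have hlarge : ∀ᶠ M : ℕ in atTop, -u - Real.log h0 ≤ 2 ^ M * (3 / 4 * x0) :=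
    ((tendsto_pow_atTop_atTop_of_one_lt (by norm_num : (1 : ℝ) < 2)).atTop_mul_const
      (by positivity)).eventually_ge_atTop _
  obtain ⟨M2, hM2⟩ := eventually_atTop.1 hlarge
  refine ⟨K, hK, max M1 M2, fun x hx z hz j M hM => ?_⟩
  have hM1 : M1 ≤ M := (le_max_left _ _).trans hM
  have hM2' := hM2 M ((le_max_right _ _).trans hM)
  have hpow : (0 : ℝ) < 2 ^ M := by positivity
  have hXX : 2 ^ M * (3 / 4 * x0) ≤ 2 ^ M * (3 / 4 * x) :=
    mul_le_mul_of_nonneg_left (by linarith) hpow.le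
  have hpiece : ∀ i : ℕ, ∫ y in (u + i * h0)..(u + ((i + 1 : ℕ) : ℝ) * h0), Ph x z M j y ≤
      Pb K z M j * h0 := by
    intro i
    have hi : (0 : ℝ) ≤ i * h0 := by positivity
    have e : u + ((i + 1 : ℕ) : ℝ) * h0 = (u + i * h0) + h0 := by push_cast; ring
    rw [e, intervalIntegral.integral_of_le (by linarith)]
    exact hmain x hx z hz j M hM1 (u + i * h0) h0 hh0p hh02 (by linarith)
  have hsum := intervalIntegral.sum_integral_adjacent_intervals
    (a := fun i : ℕ => u + i * h0) (n := n) (f := Ph x z M j) (μ := volume) (fun i _ => by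
      have hle : u + (i : ℝ) * h0 ≤ u + ((i + 1 : ℕ) : ℝ) * h0 := by
        push_cast; linarith
      rw [intervalIntegrable_iff_integrableOn_Ioc_of_le hle]
      exact integrableOn_Ph x hz _ _ _ _)
  have e0 : u + ((0 : ℕ) : ℝ) * h0 = u := by simp
  have en : u + (n : ℝ) * h0 = v := by rw [hh0]; field_simp; ring
  rw [e0, en, intervalIntegral.integral_of_le huv.le] at hsum
  rw [← hsum]
  calc _ ≤ ∑ _i ∈ range n, Pb K z M j * h0 := Finset.sum_le_sum fun i _ => hpiece i
    _ = Pb K z M j * (v - u) := by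
      rw [Finset.sum_const, Finset.card_range, nsmul_eq_mul, hh0]
      field_simp

lemma sum_w (M j : ℕ) : ∑ i ∈ range j, w (M + i) ≤ 4 * w M := by
  have h : ∀ j : ℕ, ∑ i ∈ range j, w (M + i) =
      (2 * (M : ℝ) + 4) / 2 ^ M - (2 * ((M : ℝ) + j) + 4) / 2 ^ (M + j) := by
    intro j
    induction j with
    | zero => simp
    | succ j ih =>
      rw [Finset.sum_range_succ, ih]
      unfold w
      rw [show M + (j + 1) = (M + j) + 1 by omega, pow_succ]
      push_cast
      field_simp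
      ring
  rw [h j]
  have h1 : 0 ≤ (2 * ((M : ℝ) + j) + 4) / 2 ^ (M + j) := by positivity
  have h2 : (2 * (M : ℝ) + 4) / 2 ^ M ≤ 4 * w M := by
    unfold w
    rw [← mul_div_assoc]
    refine div_le_div_of_nonneg_right ?_ (by positivity)
    have : (0 : ℝ) ≤ M := Nat.cast_nonneg M
    linarith
  linarith

lemma Pb_le {K c : ℝ} (hc : 0 ≤ c * K + 1) (M j : ℕ) :
    Pb K (fun _ => c) M j ≤ Real.exp ((c * K + 1) * (4 * w M)) := by
  unfold Pb
  set c := c * K + 1
  calc ∏ i ∈ range j, (1 + c * w (M + i)) ≤ ∏ i ∈ range j, Real.exp (c * w (M + i)) := by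
        refine Finset.prod_le_prod (fun i _ => ?_) fun i _ => ?_
        · have := mul_nonneg hc (w_pos (M + i)).le
          linarith
        · have := Real.add_one_le_exp (c * w (M + i))
          linarith
    _ = Real.exp (c * ∑ i ∈ range j, w (M + i)) := by
        rw [← Real.exp_sum, Finset.mul_sum]
    _ ≤ _ := Real.exp_le_exp.2 (mul_le_mul_of_nonneg_left (sum_w M j) hc)

/-- the indices for the base `exp x` and the amplitude `exp y` -/
def Q (x y : ℝ) : Set ℕ := Pr (Real.exp x) (Real.exp y)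

lemma w_le_one (m : ℕ) : w m ≤ 1 := by
  unfold w
  rw [div_le_one (by positivity)]
  have : (m : ℝ) + 1 ≤ (2 : ℝ) ^ m := by
    have h := Nat.lt_two_pow_self (n := m)
    exact_mod_cast h
  exact this

/-- correlations of any order -/
theorem corr {x0 : ℝ} (hx0 : 0 < x0) {u v : ℝ} (huv : u < v) : ∃ C : ℝ, 1 ≤ C ∧ ∃ M0 : ℕ,
    ∀ x : ℝ, x0 ≤ x → ∀ J : Finset ℕ, (∀ m ∈ J, M0 ≤ m) →
      ∫ y in Set.Ioc u v, ∏ m ∈ J, fm x m y ≤ (v - u) * ∏ m ∈ J, (C * w m) := by
  classical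
  obtain ⟨K, hK, M0, hwin⟩ := window hx0 huv
  have hvu : 0 < v - u := by linarith
  refine ⟨(K + 2) * Real.exp 4, ?_, M0, fun x hx J hJ => ?_⟩
  · have := Real.add_one_le_exp (4 : ℝ)
    nlinarith
  rcases J.eq_empty_or_nonempty with rfl | hne
  · simp only [Finset.prod_empty, mul_one]
    rw [setIntegral_const, smul_eq_mul, Real.volume_real_Ioc_of_le huv.le, mul_one]
  obtain ⟨b, hb⟩ := J.bddAbove
  set z : ℕ → ℝ := fun m => if m ∈ J then (w m)⁻¹ else 0 with hz
  have hz0 : ∀ m, 0 ≤ z m := by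
    intro m
    simp only [hz]
    split_ifs
    · exact (inv_pos.2 (w_pos m)).le
    · exact le_rfl
  have h1 := hwin x hx z hz0 (b + 1) M0 le_rfl
  -- the lower bound for the product
  have hsub : J ⊆ (range (b + 1)).image fun i => M0 + i := by
    intro m hm
    have h2 : m ≤ b := hb hm
    exact Finset.mem_image.2 ⟨m - M0, Finset.mem_range.2 (by omega), by have := hJ m hm; omega⟩
  have hinj : Function.Injective fun i : ℕ => M0 + i := fun a b h => by simpa using h
  have hlow : ∀ y : ℝ, (∏ m ∈ J, (w m)⁻¹) * ∏ m ∈ J, fm x m y ≤ Ph x z M0 (b + 1) y := by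
    intro y
    unfold Ph
    have e : ∏ i ∈ range (b + 1), (1 + z (M0 + i) * fm x (M0 + i) y) =
        ∏ m ∈ (range (b + 1)).image fun i => M0 + i, (1 + z m * fm x m y) := by
      rw [Finset.prod_image fun a _ b _ h => hinj h]
    rw [e, ← Finset.prod_mul_distrib, ← Finset.prod_sdiff hsub]
    have hA : ∏ m ∈ J, ((w m)⁻¹ * fm x m y) ≤ ∏ m ∈ J, (1 + z m * fm x m y) := by
      refine Finset.prod_le_prod (fun m _ => ?_) fun m hm => ?_
      · exact mul_nonneg (inv_pos.2 (w_pos m)).le (fm_nonneg _ _ _)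
      · simp only [hz, if_pos hm]
        linarith
    have hA0 : 0 ≤ ∏ m ∈ J, (1 + z m * fm x m y) := Finset.prod_nonneg fun m _ => by
      have := mul_nonneg (hz0 m) (fm_nonneg x m y)
      linarith
    have hB : 1 ≤ ∏ m ∈ ((range (b + 1)).image fun i => M0 + i) \ J, (1 + z m * fm x m y) := by
      have e0 : (1 : ℝ) = ∏ _m ∈ ((range (b + 1)).image fun i => M0 + i) \ J, (1 : ℝ) := by simp
      refine e0.le.trans ?_
      refine Finset.prod_le_prod (fun _ _ => zero_le_one) fun m _ => ?_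
      have := mul_nonneg (hz0 m) (fm_nonneg x m y)
      linarith
    nlinarith
  have hup : Pb K z M0 (b + 1) ≤ (∏ _m ∈ J, (K + 2)) * Real.exp 4 := by
    unfold Pb
    have e : ∏ i ∈ range (b + 1), (1 + (z (M0 + i) * K + 1) * w (M0 + i)) =
        ∏ m ∈ (range (b + 1)).image fun i => M0 + i, (1 + (z m * K + 1) * w m) := by
      rw [Finset.prod_image fun a _ b _ h => hinj h]
    have hle : ∀ m, 1 + (z m * K + 1) * w m ≤ (if m ∈ J then K + 2 else 1) * Real.exp (w m) := by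
      intro m
      have hw := w_pos m
      have hw1 := w_le_one m
      have he := Real.add_one_le_exp (w m)
      by_cases hm : m ∈ J
      · simp only [hz, if_pos hm]
        have : (w m)⁻¹ * w m = 1 := inv_mul_cancel₀ hw.ne'
        have e1 : 1 + ((w m)⁻¹ * K + 1) * w m = 1 + K + w m := by
          rw [add_mul, mul_right_comm, this]; ring
        rw [e1]
        nlinarith
      · simp only [hz, if_neg hm]
        linarith
    calc ∏ i ∈ range (b + 1), (1 + (z (M0 + i) * K + 1) * w (M0 + i)) ≤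
        ∏ i ∈ range (b + 1), ((if M0 + i ∈ J then K + 2 else 1) * Real.exp (w (M0 + i))) := by
          refine Finset.prod_le_prod (fun i _ => ?_) fun i _ => hle _
          have h3 := mul_nonneg (hz0 (M0 + i)) hK.le
          have := mul_nonneg (show 0 ≤ z (M0 + i) * K + 1 by linarith) (w_pos (M0 + i)).le
          linarith
      _ = (∏ i ∈ range (b + 1), (if M0 + i ∈ J then K + 2 else 1)) *
          Real.exp (∑ i ∈ range (b + 1), w (M0 + i)) := by
          rw [Finset.prod_mul_distrib, Real.exp_sum]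
      _ ≤ (∏ _m ∈ J, (K + 2)) * Real.exp 4 := by
          refine mul_le_mul ?_ (Real.exp_le_exp.2 ?_) (Real.exp_pos _).le
            (Finset.prod_nonneg fun _ _ => by linarith)
          · have e2 : ∏ i ∈ range (b + 1), (if M0 + i ∈ J then K + 2 else 1) =
                ∏ m ∈ (range (b + 1)).image fun i => M0 + i, (if m ∈ J then K + 2 else 1) := by
              rw [Finset.prod_image fun a _ b _ h => hinj h]
            rw [e2, Finset.prod_ite_mem, Finset.inter_eq_right.2 hsub]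
          · have h4 := sum_w M0 (b + 1)
            have h5 := w_le_one M0
            linarith
  have hint1 : ∀ j : ℕ, IntegrableOn (Ph x z M0 j) (Set.Ioc u v) :=
    fun j => integrableOn_Ph x hz0 M0 j u v
  have h6 : ∫ y in Set.Ioc u v, (∏ m ∈ J, (w m)⁻¹) * ∏ m ∈ J, fm x m y ≤
      ∫ y in Set.Ioc u v, Ph x z M0 (b + 1) y := by
    refine integral_mono_of_nonneg (Eventually.of_forall fun y => ?_) (hint1 _)
      (Eventually.of_forall hlow)
    exact mul_nonneg (Finset.prod_nonneg fun m _ => (inv_pos.2 (w_pos m)).le)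
      (Finset.prod_nonneg fun m _ => fm_nonneg _ _ _)
  rw [integral_const_mul] at h6
  have hW : 0 < ∏ m ∈ J, w m := Finset.prod_pos fun m _ => w_pos m
  rw [Finset.prod_inv_distrib] at h6
  have h7 : ∫ y in Set.Ioc u v, ∏ m ∈ J, fm x m y ≤
      (∏ m ∈ J, w m) * (Pb K z M0 (b + 1) * (v - u)) := by
    have h8 := h6.trans h1
    rw [inv_mul_le_iff₀ hW] at h8
    exact h8
  refine h7.trans ?_
  have h9 : (∏ m ∈ J, w m) * (Pb K z M0 (b + 1) * (v - u)) ≤
      (∏ m ∈ J, w m) * (((∏ _m ∈ J, (K + 2)) * Real.exp 4) * (v - u)) :=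
    mul_le_mul_of_nonneg_left (mul_le_mul_of_nonneg_right hup hvu.le) hW.le
  refine h9.trans ?_
  have h10 : Real.exp 4 ≤ ∏ _m ∈ J, Real.exp 4 := by
    rw [Finset.prod_const]
    refine le_self_pow₀ (Real.one_le_exp (by norm_num)) (Finset.card_ne_zero.2 hne)
  have e3 : ∏ m ∈ J, ((K + 2) * Real.exp 4 * w m) =
      (∏ _m ∈ J, (K + 2)) * (∏ _m ∈ J, Real.exp 4) * ∏ m ∈ J, w m := by
    rw [Finset.prod_mul_distrib, Finset.prod_mul_distrib]
  rw [e3]
  have h11 : 0 ≤ ∏ _m ∈ J, (K + 2) := Finset.prod_nonneg fun _ _ => by linarith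
  have h12 : (∏ _m ∈ J, (K + 2)) * Real.exp 4 ≤ (∏ _m ∈ J, (K + 2)) * ∏ _m ∈ J, Real.exp 4 :=
    mul_le_mul_of_nonneg_left h10 h11
  calc (∏ m ∈ J, w m) * (((∏ _m ∈ J, (K + 2)) * Real.exp 4) * (v - u)) =
      ((∏ m ∈ J, w m) * (v - u)) * ((∏ _m ∈ J, (K + 2)) * Real.exp 4) := by ring
    _ ≤ ((∏ m ∈ J, w m) * (v - u)) * ((∏ _m ∈ J, (K + 2)) * ∏ _m ∈ J, Real.exp 4) :=
      mul_le_mul_of_nonneg_left h12 (mul_nonneg hW.le hvu.le)
    _ = _ := by ring

/-- generic points -/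
def Gen (x y : ℝ) : Prop := (∀ m n : ℕ, y + 2 ^ m * x ≠ Real.log n) ∧ (Q x y).Finite

lemma ae_gen {x : ℝ} (hx : 0 < x) : ∀ᵐ y : ℝ, Gen x y := by
  have h1 : ∀ᵐ y : ℝ, ∀ m n : ℕ, y + 2 ^ m * x ≠ Real.log n := ae_all_iff.2 fun m => ae_ne_y x m
  have h2 := all_y (Real.one_lt_exp_iff.2 hx)
  filter_upwards [h1, h2] with y hy hy'
  exact ⟨hy, hy'⟩

lemma fm_eq {x y : ℝ} (h : Gen x y) (m : ℕ) [Decidable (m ∈ Q x y)] :
    fm x m y = if m ∈ Q x y then 1 else 0 := by
  unfold fm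
  rw [← ind_eq (h.1 m)]
  by_cases a : (WW (Real.exp x) (Real.exp y) m).Prime
  · rw [if_pos a, if_pos (show m ∈ Q x y from a)]
  · rw [if_neg a, if_neg (show m ∉ Q x y from a)]

lemma Ph_ev {x y : ℝ} (h : Gen x y) (z : ℝ) (M : ℕ) :
    ∀ᶠ j : ℕ in atTop, Ph x (fun _ => z) M j y = (1 + z) ^ (Q x y ∩ Set.Ici M).ncard := by
  classical
  obtain ⟨b, hb⟩ := h.2.bddAbove
  filter_upwards [eventually_gt_atTop b] with j hj
  unfold Ph
  have e1 : ∀ i ∈ range j, (1 + z * fm x (M + i) y) = if M + i ∈ Q x y then (1 + z) else 1 := by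
    intro i _
    rw [fm_eq h]
    split_ifs <;> ring
  rw [Finset.prod_congr rfl e1, Finset.prod_ite, Finset.prod_const, Finset.prod_const_one, mul_one]
  congr 1
  have e2 : Q x y ∩ Set.Ici M =
      (((range j).filter fun i => M + i ∈ Q x y).image fun i => M + i : Finset ℕ) := by
    ext k
    simp only [Set.mem_inter_iff, Set.mem_Ici, Finset.coe_image, Finset.coe_filter, Set.mem_image,
      Set.mem_ofPred_eq, Finset.mem_range]
    constructor
    · rintro ⟨h1, h2⟩
      have h3 : k ≤ b := hb h1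
      exact ⟨k - M, ⟨by omega, by rwa [show M + (k - M) = k by omega]⟩, by omega⟩
    · rintro ⟨i, ⟨_, h2⟩, rfl⟩
      exact ⟨h2, by omega⟩
  rw [e2, Set.ncard_coe_finset, Finset.card_image_of_injective _ fun a b h => by simpa using h]

/-- exponential moments -/
theorem moments {x0 : ℝ} (hx0 : 0 < x0) {u v : ℝ} (huv : u < v) : ∃ C : ℝ, 0 < C ∧ ∃ M0 : ℕ,
    ∀ x : ℝ, x0 ≤ x → ∀ r : ℝ, 1 ≤ r → ∀ M ≥ M0,
      Integrable (fun y => r ^ (Q x y ∩ Set.Ici M).ncard) (volume.restrict (Set.Ioc u v)) ∧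
      ∫ y in Set.Ioc u v, r ^ (Q x y ∩ Set.Ici M).ncard ≤ (v - u) * Real.exp (C * r * w M) := by
  obtain ⟨K, hK, M0, hwin⟩ := window hx0 huv
  refine ⟨4 * (K + 1), by positivity, M0, fun x hx r hr M hM => ?_⟩
  have hx' : 0 < x := lt_of_lt_of_le hx0 hx
  set μ := volume.restrict (Set.Ioc u v) with hμ
  set z := r - 1 with hz
  have hz0 : 0 ≤ z := by linarith
  have hc0 : 0 ≤ z * K + 1 := by positivity
  set B := (v - u) * Real.exp ((z * K + 1) * (4 * w M)) with hB
  have hvu : 0 < v - u := by linarith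
  have hB0 : 0 ≤ B := by positivity
  have hgen : ∀ᵐ y ∂μ, Gen x y := ae_restrict_of_ae (ae_gen hx')
  have hlim : ∀ᵐ y ∂μ, Tendsto (fun j : ℕ => Ph x (fun _ => z) M j y) atTop
      (𝓝 (r ^ (Q x y ∩ Set.Ici M).ncard)) := by
    filter_upwards [hgen] with y hy
    have h1 := Ph_ev hy z M
    have e : (1 + z) = r := by rw [hz]; ring
    rw [e] at h1
    exact tendsto_const_nhds.congr' (h1.mono fun j hj => hj.symm)
  have hmeas : AEStronglyMeasurable (fun y => r ^ (Q x y ∩ Set.Ici M).ncard) μ :=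
    aestronglyMeasurable_of_tendsto_ae atTop
      (fun j => (measurable_Ph x (fun _ => z) M j).aestronglyMeasurable) hlim
  have hint : ∀ j : ℕ, ∫⁻ y, ENNReal.ofReal (Ph x (fun _ => z) M j y) ∂μ ≤ ENNReal.ofReal B := by
    intro j
    rw [← ofReal_integral_eq_lintegral_ofReal (integrableOn_Ph x (fun _ => hz0) M j u v)
      (Eventually.of_forall fun y => Ph_nonneg x (fun _ => hz0) M j y)]
    refine ENNReal.ofReal_le_ofReal ?_
    calc _ ≤ Pb K (fun _ => z) M j * (v - u) := hwin x hx (fun _ => z) (fun _ => hz0) j M hM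
      _ ≤ Real.exp ((z * K + 1) * (4 * w M)) * (v - u) :=
        mul_le_mul_of_nonneg_right (Pb_le hc0 M j) hvu.le
      _ = B := by rw [hB]; ring
  have hfatou : ∫⁻ y, ENNReal.ofReal (r ^ (Q x y ∩ Set.Ici M).ncard) ∂μ ≤ ENNReal.ofReal B := by
    have h1 : ∫⁻ y, ENNReal.ofReal (r ^ (Q x y ∩ Set.Ici M).ncard) ∂μ =
        ∫⁻ y, liminf (fun j : ℕ => ENNReal.ofReal (Ph x (fun _ => z) M j y)) atTop ∂μ := by
      refine lintegral_congr_ae ?_
      filter_upwards [hlim] with y hy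
      exact (((ENNReal.continuous_ofReal.tendsto _).comp hy).liminf_eq).symm
    rw [h1]
    refine (lintegral_liminf_le fun j => (measurable_Ph x (fun _ => z) M j).ennreal_ofReal).trans ?_
    refine liminf_le_of_frequently_le' (Frequently.of_forall fun j => hint j)
  have hr0 : ∀ y, 0 ≤ r ^ (Q x y ∩ Set.Ici M).ncard := fun y => by positivity
  have hI : Integrable (fun y => r ^ (Q x y ∩ Set.Ici M).ncard) μ := by
    refine ⟨hmeas, ?_⟩
    rw [hasFiniteIntegral_iff_ofReal (Eventually.of_forall hr0)]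
    exact lt_of_le_of_lt hfatou ENNReal.ofReal_lt_top
  refine ⟨hI, ?_⟩
  have h2 : ∫ y, r ^ (Q x y ∩ Set.Ici M).ncard ∂μ ≤ B := by
    rw [integral_eq_lintegral_of_nonneg_ae (Eventually.of_forall hr0) hmeas]
    exact ENNReal.toReal_le_of_le_ofReal hB0 hfatou
  refine h2.trans ?_
  rw [hB]
  refine mul_le_mul_of_nonneg_left (Real.exp_le_exp.2 ?_) hvu.le
  have hw := w_pos M
  have h3 : z * K + 1 ≤ (K + 1) * r := by nlinarith
  nlinarith

end Pool.Agent.V1193.FS
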