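import Pool.Agent.V1193.FS.C

set_option autoImplicit false

/-! Events, tails, full moments. -/

namespace Pool.Agent.V1193.FS

open Finset Filter Topology MeasureTheory
open Pool.Agent.V1193.FM

lemma meas_Q (x : ℝ) (m : ℕ) : MeasurableSet {y : ℝ | m ∈ Q x y} := meas_y x m

lemma corr_set {x0 : ℝ} (hx0 : 0 < x0) {u v : ℝ} (huv : u < v) : ∃ C : ℝ, 1 ≤ C ∧ ∃ M0 : ℕ,
    ∀ x : ℝ, x0 ≤ x → ∀ J : Finset ℕ, (∀ m ∈ J, M0 ≤ m) →
      volume.real {y ∈ Set.Ioc u v | ∀ m ∈ J, m ∈ Q x y} ≤ (v - u) * ∏ m ∈ J, (C * w m) := by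
  classical
  obtain ⟨C, hC, M0, h⟩ := corr hx0 huv
  refine ⟨C, hC, M0, fun x hx J hJ => ?_⟩
  have hx' : 0 < x := lt_of_lt_of_le hx0 hx
  refine le_trans (le_of_eq ?_) (h x hx J hJ)
  have hm : MeasurableSet {y : ℝ | ∀ m ∈ J, m ∈ Q x y} := by
    have : {y : ℝ | ∀ m ∈ J, m ∈ Q x y} = ⋂ m ∈ J, {y : ℝ | m ∈ Q x y} := by
      ext y; simp
    rw [this]
    exact Finset.measurableSet_biInter J fun m _ => meas_Q x m
  have h1 := vol_eq hm u v
  have e : {y | y ∈ Set.Ioc u v ∧ y ∈ {y : ℝ | ∀ m ∈ J, m ∈ Q x y}} =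
      {y | y ∈ Set.Ioc u v ∧ ∀ m ∈ J, m ∈ Q x y} := rfl
  rw [e] at h1
  rw [← h1]
  refine setIntegral_congr_ae measurableSet_Ioc ?_
  filter_upwards [ae_gen hx'] with y hy _
  have e2 : ∏ m ∈ J, fm x m y = ∏ m ∈ J, if m ∈ Q x y then (1 : ℝ) else 0 :=
    Finset.prod_congr rfl fun m _ => fm_eq hy m
  rw [e2]
  by_cases hall : ∀ m ∈ J, m ∈ Q x y
  · rw [Set.indicator_of_mem (show y ∈ {y : ℝ | ∀ m ∈ J, m ∈ Q x y} from hall)]
    symm
    exact Finset.prod_eq_one fun m hm => if_pos (hall m hm)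
  · rw [Set.indicator_of_notMem (show y ∉ {y : ℝ | ∀ m ∈ J, m ∈ Q x y} from hall)]
    push Not at hall
    obtain ⟨m, hm1, hm2⟩ := hall
    symm
    exact Finset.prod_eq_zero hm1 (if_neg hm2)

/-- tails -/
theorem tails {x0 : ℝ} (hx0 : 0 < x0) {u v : ℝ} (huv : u < v) : ∃ C : ℝ, 0 < C ∧ ∃ M0 : ℕ,
    ∀ x : ℝ, x0 ≤ x → ∀ M ≥ M0, ∀ k : ℕ,
      volume.real {y ∈ Set.Ioc u v | (k : ℕ∞) ≤ (Q x y ∩ Set.Ici M).encard} ≤
        (v - u) * ((C * w M) ^ k / k.factorial) := by
  obtain ⟨C, hC, M0, h⟩ := moments hx0 huv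
  refine ⟨C * Real.exp 1, by positivity, M0, fun x hx M hM k => ?_⟩
  have hx' : 0 < x := lt_of_lt_of_le hx0 hx
  have hvu : 0 < v - u := by linarith
  have hw := w_pos M
  have hfac : (0 : ℝ) < k.factorial := by exact_mod_cast k.factorial_pos
  have hfk : (k.factorial : ℝ) ≤ (k : ℝ) ^ k := by exact_mod_cast Nat.factorial_le_pow k
  have htriv : volume.real {y ∈ Set.Ioc u v | (k : ℕ∞) ≤ (Q x y ∩ Set.Ici M).encard} ≤ v - u := by
    calc _ ≤ volume.real (Set.Ioc u v) :=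
          measureReal_mono (fun y hy => hy.1) (by simp)
      _ = v - u := Real.volume_real_Ioc_of_le huv.le
  have hE : Real.exp 1 ^ k = Real.exp k := by
    rw [← Real.exp_nat_mul, mul_one]
  have hE1 : 1 ≤ Real.exp (k : ℝ) := Real.one_le_exp (Nat.cast_nonneg k)
  rcases le_or_gt (C * w M) k with hk | hk
  · -- Markov
    rcases Nat.eq_zero_or_pos k with rfl | hkp
    · simp only [pow_zero, Nat.factorial_zero, Nat.cast_one, div_one, mul_one]
      exact htriv
    have hkp' : (0 : ℝ) < k := by exact_mod_cast hkp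
    set r := (k : ℝ) / (C * w M) with hr
    have hr1 : 1 ≤ r := by rw [hr, one_le_div (by positivity)]; exact hk
    obtain ⟨hI, hb⟩ := h x hx r hr1 M hM
    have hr0 : 0 < r := by linarith
    have hmark := mul_meas_ge_le_integral_of_nonneg
      (Eventually.of_forall fun y => (by positivity : (0:ℝ) ≤ r ^ (Q x y ∩ Set.Ici M).ncard)) hI (r ^ k)
    have hcrw : C * r * w M = k := by
      rw [hr]; field_simp
    rw [hcrw] at hb
    have hsub : volume.real {y ∈ Set.Ioc u v | (k : ℕ∞) ≤ (Q x y ∩ Set.Ici M).encard} ≤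
        (volume.restrict (Set.Ioc u v)).real {y | r ^ k ≤ r ^ (Q x y ∩ Set.Ici M).ncard} := by
      have hae : ∀ᵐ y : ℝ, y ∈ {y | y ∈ Set.Ioc u v ∧ (k : ℕ∞) ≤ (Q x y ∩ Set.Ici M).encard} →
          y ∈ {y | r ^ k ≤ r ^ (Q x y ∩ Set.Ici M).ncard} ∩ Set.Ioc u v := by
        filter_upwards [ae_gen hx'] with y hy h1
        refine ⟨?_, h1.1⟩
        have hfin : (Q x y ∩ Set.Ici M).Finite := hy.2.subset Set.inter_subset_left
        have h2 : k ≤ (Q x y ∩ Set.Ici M).ncard := by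
          have := h1.2
          rw [← hfin.cast_ncard_eq] at this
          exact_mod_cast this
        exact pow_le_pow_right₀ hr1 h2
      have h3 : volume {y | y ∈ Set.Ioc u v ∧ (k : ℕ∞) ≤ (Q x y ∩ Set.Ici M).encard} ≤
          volume ({y | r ^ k ≤ r ^ (Q x y ∩ Set.Ici M).ncard} ∩ Set.Ioc u v) :=
        measure_mono_ae hae
      have h4 : volume ({y | r ^ k ≤ r ^ (Q x y ∩ Set.Ici M).ncard} ∩ Set.Ioc u v) =
          (volume.restrict (Set.Ioc u v)) {y | r ^ k ≤ r ^ (Q x y ∩ Set.Ici M).ncard} :=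
        (Measure.restrict_apply' measurableSet_Ioc).symm
      rw [h4] at h3
      exact ENNReal.toReal_mono (measure_ne_top _ _) h3
    have hrk : 0 < r ^ k := by positivity
    have h5 : (volume.restrict (Set.Ioc u v)).real {y | r ^ k ≤ r ^ (Q x y ∩ Set.Ici M).ncard} ≤
        (v - u) * Real.exp k / r ^ k := by
      rw [le_div_iff₀ hrk, mul_comm]
      exact hmark.trans hb
    refine (hsub.trans h5).trans ?_
    have e : (v - u) * Real.exp k / r ^ k =
        (v - u) * ((C * Real.exp 1 * w M) ^ k / (k : ℝ) ^ k) := by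
      rw [hr, div_pow, mul_pow, mul_pow, mul_pow, hE]
      field_simp
    rw [e]
    refine mul_le_mul_of_nonneg_left ?_ hvu.le
    exact div_le_div_of_nonneg_left (by positivity) hfac hfk
  · refine htriv.trans ?_
    have h1 : (1 : ℝ) ≤ (C * Real.exp 1 * w M) ^ k / k.factorial := by
      rw [le_div_iff₀ hfac, one_mul]
      calc (k.factorial : ℝ) ≤ (k : ℝ) ^ k := hfk
        _ ≤ (C * Real.exp 1 * w M) ^ k := by
          refine pow_le_pow_left₀ (Nat.cast_nonneg k) ?_ k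
          have h2 := Real.add_one_le_exp (1 : ℝ)
          have h3 : 0 < C * w M := by positivity
          nlinarith
    nlinarith

/-- all exponential moments of the total number -/
theorem full_moment {x : ℝ} (hx : 0 < x) {u v : ℝ} (huv : u < v) {r : ℝ} (hr : 1 ≤ r) :
    IntegrableOn (fun y => r ^ (Q x y).ncard) (Set.Ioc u v) := by
  obtain ⟨C, hC, M0, h⟩ := moments hx huv
  obtain ⟨hI, -⟩ := h x le_rfl r hr M0 le_rfl
  have hr0 : 0 < r := by linarith
  have hgen : ∀ᵐ y ∂(volume.restrict (Set.Ioc u v)), Gen x y := ae_restrict_of_ae (ae_gen hx)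
  refine Integrable.mono' (hI.const_mul (r ^ M0)) ?_ ?_
  · refine aestronglyMeasurable_of_tendsto_ae atTop
      (fun j => (measurable_Ph x (fun _ => r - 1) 0 j).aestronglyMeasurable) ?_
    filter_upwards [hgen] with y hy
    have h1 := Ph_ev hy (r - 1) 0
    have e : (1 + (r - 1)) = r := by ring
    rw [e] at h1
    have e2 : Q x y ∩ Set.Ici 0 = Q x y := by
      ext k; simp
    rw [e2] at h1
    exact tendsto_const_nhds.congr' (h1.mono fun j hj => hj.symm)
  · filter_upwards [hgen] with y hy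
    rw [Real.norm_of_nonneg (by positivity), ← pow_add]
    refine pow_le_pow_right₀ hr ?_
    have e : Q x y ⊆ Set.Iio M0 ∪ (Q x y ∩ Set.Ici M0) := by
      intro k hk
      rcases lt_or_ge k M0 with h1 | h1
      · exact Or.inl h1
      · exact Or.inr ⟨hk, h1⟩
    have hf2 : (Q x y ∩ Set.Ici M0).Finite := hy.2.subset Set.inter_subset_left
    calc (Q x y).ncard ≤ (Set.Iio M0 ∪ (Q x y ∩ Set.Ici M0)).ncard :=
          Set.ncard_le_ncard e ((Set.finite_Iio M0).union hf2)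
      _ ≤ (Set.Iio M0).ncard + (Q x y ∩ Set.Ici M0).ncard := Set.ncard_union_le _ _
      _ = M0 + (Q x y ∩ Set.Ici M0).ncard := by
        congr 1
        rw [Set.ncard_eq_toFinset_card']
        simp

end Pool.Agent.V1193.FS
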