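import Pool.Agent.V1193.FS.D
import Pool.Agent.Y122.PC.Asym

set_option autoImplicit false

/-! The correlation of two levels in the mean over base and amplitude. -/

namespace Pool.Agent.V1193.FS

open Finset Filter Topology MeasureTheory
open Pool.Agent.V1193.FM (g g_nonneg g_le_one measurable_g g_bound g_asymp)
open Pool.Agent.Y122.PC (integrable_of_bdd shift_le sh sh_bound vol_sq Bx measurable_Bx vol_Bx
  arg_large T int_T eg eg_pos)

/-- the mean of `g p` over the window of length `l` that begins at `s` -/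
noncomputable def Av (p : ℕ) (l s : ℝ) : ℝ := (∫ t in Set.Ioc 0 l, g p (s + t)) / l

/-- the product of the two indicators -/
noncomputable def F (p q : ℕ) (z : ℝ × ℝ) : ℝ := g p (p * z.1 + z.2) * g q (q * z.1 + z.2)

/-- the product of the two window means -/
noncomputable def G (p q : ℕ) (l : ℝ) (z : ℝ × ℝ) : ℝ :=
  Av p l (p * z.1 + z.2) * Av q l (q * z.1 + z.2)

lemma F_nonneg (p q : ℕ) (z : ℝ × ℝ) : 0 ≤ F p q z := mul_nonneg (g_nonneg _ _) (g_nonneg _ _)

lemma F_le_one (p q : ℕ) (z : ℝ × ℝ) : F p q z ≤ 1 :=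
  mul_le_one₀ (g_le_one _ _) (g_nonneg _ _) (g_le_one _ _)

lemma measurable_F (p q : ℕ) : Measurable (F p q) :=
  ((measurable_g p).comp (by fun_prop)).mul ((measurable_g q).comp (by fun_prop))

lemma F_shift {p q : ℕ} (hpq : p ≠ q) (z w : ℝ × ℝ) :
    F p q (z + sh p q w) = g p (p * z.1 + z.2 + w.1) * g q (q * z.1 + z.2 + w.2) := by
  have h : (q : ℝ) - p ≠ 0 := sub_ne_zero.2 (by exact_mod_cast hpq.symm)
  unfold F sh
  congr 2
  · simp only [Prod.fst_add, Prod.snd_add]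
    ring
  · simp only [Prod.fst_add, Prod.snd_add]
    have : (q : ℝ) * ((w.2 - w.1) / ((q : ℝ) - p)) - p * ((w.2 - w.1) / ((q : ℝ) - p)) =
        w.2 - w.1 := by
      rw [← sub_mul]
      exact mul_div_cancel₀ _ h
    linarith

lemma measurable_kernel (p q : ℕ) : Measurable (fun r : (ℝ × ℝ) × (ℝ × ℝ) =>
    g p (p * r.2.1 + r.2.2 + r.1.1) * g q (q * r.2.1 + r.2.2 + r.1.2)) :=
  ((measurable_g p).comp (by fun_prop)).mul ((measurable_g q).comp (by fun_prop))

lemma swap {p q : ℕ} {l : ℝ} (hl : 0 < l) {S : Set (ℝ × ℝ)} (hfin : volume S ≠ ⊤) :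
    ∫ w in Set.Ioc 0 l ×ˢ Set.Ioc 0 l, (∫ z in S,
      g p (p * z.1 + z.2 + w.1) * g q (q * z.1 + z.2 + w.2)) = l ^ 2 * ∫ z in S, G p q l z := by
  have : IsFiniteMeasure (volume.restrict S) := ⟨by
      rw [Measure.restrict_apply_univ]; exact lt_top_iff_ne_top.2 hfin⟩
  have : IsFiniteMeasure (volume.restrict (Set.Ioc (0 : ℝ) l ×ˢ Set.Ioc (0 : ℝ) l)) := ⟨by
      rw [Measure.restrict_apply_univ, Measure.volume_eq_prod, Measure.prod_prod]
      exact ENNReal.mul_lt_top (by simp) (by simp)⟩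
  rw [integral_integral_swap, ← integral_const_mul]
  · refine integral_congr_ae (Eventually.of_forall fun z => ?_)
    have h := setIntegral_prod_mul (μ := (volume : Measure ℝ)) (ν := (volume : Measure ℝ))
      (fun t => g p (p * z.1 + z.2 + t)) (fun t => g q (q * z.1 + z.2 + t)) (Set.Ioc 0 l) (Set.Ioc 0 l)
    change ∫ w in Set.Ioc 0 l ×ˢ Set.Ioc 0 l, g p (p * z.1 + z.2 + w.1) * g q (q * z.1 + z.2 + w.2) = _
    rw [Measure.volume_eq_prod, h]
    unfold G Av
    field_simp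
  · exact integrable_of_bdd (measurable_kernel p q)
      (fun r => mul_nonneg (g_nonneg _ _) (g_nonneg _ _))
      (C := 1) (fun r => mul_le_one₀ (g_le_one _ _) (g_nonneg _ _) (g_le_one _ _))

lemma inner_int {p q : ℕ} {l : ℝ} {S : Set (ℝ × ℝ)} (hfin : volume S ≠ ⊤) :
    IntegrableOn (fun w : ℝ × ℝ => ∫ z in S,
      g p (p * z.1 + z.2 + w.1) * g q (q * z.1 + z.2 + w.2)) (Set.Ioc (0 : ℝ) l ×ˢ Set.Ioc (0 : ℝ) l)
      volume := by
  have : IsFiniteMeasure (volume.restrict S) := ⟨by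
      rw [Measure.restrict_apply_univ]; exact lt_top_iff_ne_top.2 hfin⟩
  have : IsFiniteMeasure (volume.restrict (Set.Ioc (0 : ℝ) l ×ˢ Set.Ioc (0 : ℝ) l)) := ⟨by
      rw [Measure.restrict_apply_univ, Measure.volume_eq_prod, Measure.prod_prod]
      exact ENNReal.mul_lt_top (by simp) (by simp)⟩
  have h := (integrable_of_bdd (μ := (volume.restrict (Set.Ioc (0 : ℝ) l ×ˢ Set.Ioc (0 : ℝ) l)).prod
    (volume.restrict S)) (measurable_kernel p q)
      (fun r => mul_nonneg (g_nonneg _ _) (g_nonneg _ _))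
      (C := 1) (fun r => mul_le_one₀ (g_le_one _ _) (g_nonneg _ _) (g_le_one _ _)))
  exact h.integral_prod_left

/-- upper comparison -/
lemma G_le {p q : ℕ} (hpq : p ≠ q) {l ξ η : ℝ} (hl : 0 < l) (hξ : l ≤ ξ * |(q : ℝ) - p|)
    (hη : l + p * ξ ≤ η) {S S' : Set (ℝ × ℝ)} (hS : MeasurableSet S) (hS' : MeasurableSet S')
    (hfin' : volume S' ≠ ⊤) (hfin : volume S ≠ ⊤)
    (h : ∀ z ∈ S, ∀ v : ℝ × ℝ, |v.1| ≤ ξ → |v.2| ≤ η → z + v ∈ S') :
    ∫ z in S, G p q l z ≤ ∫ z in S', F p q z := by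
  have h1 := swap (p := p) (q := q) hl hfin
  have hq : MeasurableSet (Set.Ioc (0 : ℝ) l ×ˢ Set.Ioc (0 : ℝ) l) :=
    measurableSet_Ioc.prod measurableSet_Ioc
  have hvol : volume (Set.Ioc (0 : ℝ) l ×ˢ Set.Ioc (0 : ℝ) l) ≠ ⊤ := by
    rw [Measure.volume_eq_prod, Measure.prod_prod]
    exact (ENNReal.mul_lt_top (by simp) (by simp)).ne
  have h2 : ∫ w in Set.Ioc 0 l ×ˢ Set.Ioc 0 l, (∫ z in S,
      g p (p * z.1 + z.2 + w.1) * g q (q * z.1 + z.2 + w.2)) ≤
      ∫ _w in Set.Ioc (0 : ℝ) l ×ˢ Set.Ioc (0 : ℝ) l, (∫ z in S', F p q z) := by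
    refine setIntegral_mono_on (inner_int hfin) ((integrableOn_const (C := ∫ z in S', F p q z) hvol)) hq
      fun w hw => ?_
    obtain ⟨b1, b2⟩ := sh_bound hpq hξ hη hw
    have h3 := shift_le hS hS' hfin' hfin (measurable_F p q) (F_nonneg p q) (F_le_one p q)
      (sh p q w) (fun z hz => h z hz _ b1 b2)
    simpa only [F_shift hpq] using h3
  rw [h1, setIntegral_const, vol_sq hl, smul_eq_mul] at h2
  exact le_of_mul_le_mul_left h2 (by positivity)

/-- lower comparison -/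
lemma F_le {p q : ℕ} (hpq : p ≠ q) {l ξ η : ℝ} (hl : 0 < l) (hξ : l ≤ ξ * |(q : ℝ) - p|)
    (hη : l + p * ξ ≤ η) {S S' : Set (ℝ × ℝ)} (hS : MeasurableSet S) (hS' : MeasurableSet S')
    (hfin' : volume S' ≠ ⊤) (hfin : volume S ≠ ⊤)
    (h : ∀ z ∈ S, ∀ v : ℝ × ℝ, |v.1| ≤ ξ → |v.2| ≤ η → z + v ∈ S') :
    ∫ z in S, F p q z ≤ ∫ z in S', G p q l z := by
  have h1 := swap (p := p) (q := q) hl hfin'
  have hq : MeasurableSet (Set.Ioc (0 : ℝ) l ×ˢ Set.Ioc (0 : ℝ) l) :=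
    measurableSet_Ioc.prod measurableSet_Ioc
  have hvol : volume (Set.Ioc (0 : ℝ) l ×ˢ Set.Ioc (0 : ℝ) l) ≠ ⊤ := by
    rw [Measure.volume_eq_prod, Measure.prod_prod]
    exact (ENNReal.mul_lt_top (by simp) (by simp)).ne
  have h2 : ∫ _w in Set.Ioc (0 : ℝ) l ×ˢ Set.Ioc (0 : ℝ) l, (∫ z in S, F p q z) ≤
      ∫ w in Set.Ioc 0 l ×ˢ Set.Ioc 0 l, (∫ z in S',
      g p (p * z.1 + z.2 + w.1) * g q (q * z.1 + z.2 + w.2)) := by
    refine setIntegral_mono_on ((integrableOn_const (C := ∫ z in S, F p q z) hvol)) (inner_int hfin') hq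
      fun w hw => ?_
    obtain ⟨b1, b2⟩ := sh_bound hpq hξ hη hw
    have h3 := shift_le hS hS' hfin' hfin (f := fun z => F p q (z + sh p q w))
      ((measurable_F p q).comp (measurable_add_const _)) (fun z => F_nonneg p q _)
      (fun z => F_le_one p q _) (-(sh p q w)) (fun z hz => h z hz _ (by simpa using b1) (by simpa using b2))
    simp only [neg_add_cancel_right] at h3
    simpa only [F_shift hpq] using h3
  rw [h1, setIntegral_const, vol_sq hl, smul_eq_mul] at h2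
  exact le_of_mul_le_mul_left h2 (by positivity)

lemma Av_eq (p : ℕ) {l : ℝ} (hl : 0 < l) (s : ℝ) :
    Av p l s = (∫ t in Set.Ioc s (s + l), g p t) / l := by
  unfold Av
  rw [← intervalIntegral.integral_of_le hl.le, ← intervalIntegral.integral_of_le (by linarith),
    intervalIntegral.integral_comp_add_left (fun t => g p t) s, add_zero]

lemma Av_nonneg (p : ℕ) {l : ℝ} (hl : 0 < l) (s : ℝ) : 0 ≤ Av p l s := by
  unfold Av
  exact div_nonneg (integral_nonneg fun t => g_nonneg _ _) hl.le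

lemma measurable_Av (p : ℕ) {l : ℝ} : Measurable (Av p l) := by
  unfold Av
  refine Measurable.div_const ?_ _
  have h : StronglyMeasurable (fun r : ℝ × ℝ => g p (r.1 + r.2)) :=
    ((measurable_g p).comp (by fun_prop)).stronglyMeasurable
  exact (h.integral_prod_right' (ν := volume.restrict (Set.Ioc 0 l))).measurable

lemma Av_bound {c : ℝ} (hc : 0 < c) : ∃ K : ℝ, 0 < K ∧ ∀ᶠ p : ℕ in atTop, ∀ s l : ℝ, 0 < l →
    c * p + 1 ≤ s → Av p l s ≤ K * (1 + 1 / (l * p)) * (Real.log p / p) := by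
  obtain ⟨K, hK, hev⟩ := g_bound hc
  refine ⟨K, hK, ?_⟩
  filter_upwards [hev, eventually_gt_atTop 0] with p hp hp0 s l hl hs
  have hp0' : (0 : ℝ) < p := by exact_mod_cast hp0
  rw [Av_eq p hl]
  have h := hp s (s + l) hs (by linarith)
  rw [div_le_iff₀ hl]
  refine h.trans (le_of_eq ?_)
  rw [show s + l - s = l by ring]
  field_simp

lemma Av_tendsto {l : ℝ} (hl : 0 < l) (hl1 : l ≤ 1) {x : ℝ} (hx : 0 < x) (y : ℝ) :
    Tendsto (fun p : ℕ => Av p l (p * x + y) * (p / Real.log p)) atTop (𝓝 (eg / x)) := by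
  have h1 : Tendsto (fun p : ℕ => (p * x + y) / (p : ℝ)) atTop (𝓝 x) := by
    have h2 : Tendsto (fun p : ℕ => x + y / (p : ℝ)) atTop (𝓝 (x + 0)) :=
      tendsto_const_nhds.add (tendsto_const_nhds.div_atTop tendsto_natCast_atTop_atTop)
    rw [add_zero] at h2
    refine h2.congr' ?_
    filter_upwards [eventually_gt_atTop 0] with p hp
    have hp0' : (0 : ℝ) < p := by exact_mod_cast hp
    field_simp
  have h3 := (g_asymp hx hl h1).div_const l
  have e : Real.exp Real.eulerMascheroniConstant * l / x / l = eg / x := by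
    unfold eg; field_simp
  rw [e] at h3
  refine h3.congr fun p => ?_
  rw [Av_eq p hl]
  ring

lemma measurable_G (p q : ℕ) (l : ℝ) : Measurable (G p q l) := by
  unfold G
  exact ((measurable_Av p).comp (by fun_prop)).mul ((measurable_Av q).comp (by fun_prop))

/-- **The product of the window means.** -/
lemma J_tendsto {l : ℝ} (hl : 0 < l) (hl1 : l ≤ 1) {x0 : ℝ} (hx0 : 0 < x0) (x1 y0 y1 : ℝ) :
    Tendsto (fun r : ℕ × ℕ => (∫ z in Bx x0 x1 y0 y1, G r.1 r.2 l z) *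
      ((r.1 / Real.log r.1) * (r.2 / Real.log r.2))) (atTop ×ˢ atTop)
      (𝓝 (∫ z in Bx x0 x1 y0 y1, (eg / z.1) * (eg / z.1))) := by
  obtain ⟨K, hK, hev⟩ := Av_bound (c := x0 / 2) (by positivity)
  have hone : ∀ᶠ p : ℕ in atTop, ∀ z ∈ Bx x0 x1 y0 y1,
      0 ≤ Av p l (p * z.1 + z.2) * (p / Real.log p) ∧
      Av p l (p * z.1 + z.2) * (p / Real.log p) ≤ K * (1 + 1 / l) := by
    filter_upwards [hev, arg_large hx0 x1 y0 y1, eventually_gt_atTop 2] with p h1 h2 h3 z hz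
    have hp0 : (2 : ℝ) < p := by exact_mod_cast h3
    have hlog : 0 < Real.log p := Real.log_pos (by linarith)
    refine ⟨mul_nonneg (Av_nonneg p hl _) (by positivity), ?_⟩
    have h4 := h1 (p * z.1 + z.2) l hl (h2 z hz)
    calc Av p l (p * z.1 + z.2) * (p / Real.log p) ≤
        K * (1 + 1 / (l * p)) * (Real.log p / p) * (p / Real.log p) := by gcongr
      _ = K * (1 + 1 / (l * p)) := by field_simp
      _ ≤ K * (1 + 1 / l) := by
        have : l * 1 ≤ l * p := mul_le_mul_of_nonneg_left (by linarith) hl.le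
        rw [mul_one] at this
        gcongr
  have key : Tendsto (fun r : ℕ × ℕ => ∫ z in Bx x0 x1 y0 y1,
      (Av r.1 l (r.1 * z.1 + z.2) * (r.1 / Real.log r.1)) *
      (Av r.2 l (r.2 * z.1 + z.2) * (r.2 / Real.log r.2))) (atTop ×ˢ atTop)
      (𝓝 (∫ z in Bx x0 x1 y0 y1, (eg / z.1) * (eg / z.1))) := by
    refine tendsto_integral_filter_of_dominated_convergence
      (fun _ => (K * (1 + 1 / l)) * (K * (1 + 1 / l))) ?_ ?_ ?_ ?_
    · refine Eventually.of_forall fun r => Measurable.aestronglyMeasurable ?_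
      exact (((measurable_Av _).comp (by fun_prop)).mul_const _).mul
        (((measurable_Av _).comp (by fun_prop)).mul_const _)
    · filter_upwards [hone.prod_mk hone] with r hr
      filter_upwards [ae_restrict_mem (measurable_Bx x0 x1 y0 y1)] with z hz
      obtain ⟨a1, a2⟩ := hr.1 z hz
      obtain ⟨b1, b2⟩ := hr.2 z hz
      rw [Real.norm_of_nonneg (mul_nonneg a1 b1)]
      exact mul_le_mul a2 b2 b1 (a1.trans a2)
    · exact integrable_const _
    · filter_upwards [ae_restrict_mem (measurable_Bx x0 x1 y0 y1)] with z hz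
      have hz1 : 0 < z.1 := hx0.trans hz.1.1
      exact ((Av_tendsto hl hl1 hz1 z.2).comp tendsto_fst).mul
        ((Av_tendsto hl hl1 hz1 z.2).comp tendsto_snd)
  refine key.congr fun r => ?_
  rw [← integral_mul_const]
  refine integral_congr_ae (Eventually.of_forall fun z => ?_)
  simp only [G]
  ring

/-- the integral of the product of the indicators over a box -/
noncomputable def I (x0 x1 y0 y1 : ℝ) (p q : ℕ) : ℝ := ∫ z in Bx x0 x1 y0 y1, F p q z

lemma I_nonneg (x0 x1 y0 y1 : ℝ) (p q : ℕ) : 0 ≤ I x0 x1 y0 y1 p q :=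
  integral_nonneg fun _ => F_nonneg _ _ _

/-- **Correlation of two levels that are not close.** -/
theorem far {x0 x1 y0 y1 : ℝ} (hx0 : 0 < x0) (hx : x0 < x1) (hy : y0 < y1) {ε δ : ℝ} (hε : 0 < ε)
    (hδ : 0 < δ) : ∃ N : ℕ, ∀ p q : ℕ, N ≤ p → N ≤ q → δ * ((p : ℝ) + q) ≤ |(q : ℝ) - p| →
    |I x0 x1 y0 y1 p q * ((p / Real.log p) * (q / Real.log q)) - T x0 x1 y0 y1| ≤ ε := by
  -- the enlargement
  have hθ : ∃ θ : ℝ, 0 < θ ∧ θ < x0 ∧ x0 + θ < x1 - θ ∧ y0 + θ < y1 - θ ∧ θ < 1 ∧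
      T (x0 - θ) (x1 + θ) (y0 - θ) (y1 + θ) < T x0 x1 y0 y1 + ε / 2 ∧
      T x0 x1 y0 y1 - ε / 2 < T (x0 + θ) (x1 - θ) (y0 + θ) (y1 - θ) := by
    have hx1 : 0 < x1 := hx0.trans hx
    have c1 : ContinuousAt (fun θ : ℝ => T (x0 - θ) (x1 + θ) (y0 - θ) (y1 + θ)) 0 := by
      unfold T
      refine ContinuousAt.mul (ContinuousAt.mul continuousAt_const (ContinuousAt.sub
        (ContinuousAt.div continuousAt_const (by fun_prop) (by simp; exact hx0.ne'))
        (ContinuousAt.div continuousAt_const (by fun_prop) (by simp; exact hx1.ne')))) (by fun_prop)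
    have c2 : ContinuousAt (fun θ : ℝ => T (x0 + θ) (x1 - θ) (y0 + θ) (y1 - θ)) 0 := by
      unfold T
      refine ContinuousAt.mul (ContinuousAt.mul continuousAt_const (ContinuousAt.sub
        (ContinuousAt.div continuousAt_const (by fun_prop) (by simp; exact hx0.ne'))
        (ContinuousAt.div continuousAt_const (by fun_prop) (by simp; exact hx1.ne')))) (by fun_prop)
    have t1 := c1.tendsto.mono_left (nhdsWithin_le_nhds (s := Set.Ioi 0))
    have t2 := c2.tendsto.mono_left (nhdsWithin_le_nhds (s := Set.Ioi 0))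
    simp only [sub_zero, add_zero] at t1 t2
    have e1 := t1.eventually_lt_const (show T x0 x1 y0 y1 < T x0 x1 y0 y1 + ε / 2 by linarith)
    have e2 := t2.eventually_const_lt (show T x0 x1 y0 y1 - ε / 2 < T x0 x1 y0 y1 by linarith)
    have e3 : ∀ a : ℝ, 0 < a → ∀ᶠ θ : ℝ in 𝓝[>] 0, θ < a := fun a ha =>
      (eventually_lt_nhds ha).filter_mono nhdsWithin_le_nhds
    have e4 : ∀ᶠ θ : ℝ in 𝓝[>] 0, 0 < θ := self_mem_nhdsWithin
    obtain ⟨θ, a1, a2, a3, a4, a5, a6, a7⟩ := (e1.and (e2.and ((e3 x0 hx0).and ((e3 ((x1 - x0) / 2) (by linarith)).and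
      ((e3 ((y1 - y0) / 2) (by linarith)).and ((e3 1 one_pos).and e4)))))).exists
    exact ⟨θ, a7, a3, by linarith, by linarith, a6, a1, a2⟩
  obtain ⟨θ, hθ0, hθx, hθx', hθy, hθ1, hup, hlow⟩ := hθ
  -- the length of the windows
  obtain ⟨l, hl0, hl1, hlθ, hlδ⟩ : ∃ l : ℝ, 0 < l ∧ l ≤ 1 ∧ l ≤ θ ∧ l + l / δ ≤ θ := by
    refine ⟨θ * (δ / (1 + δ)), by positivity, ?_, ?_, ?_⟩
    · have : δ / (1 + δ) ≤ 1 := (div_le_one (by positivity)).2 (by linarith)
      nlinarith [div_nonneg hδ.le (show 0 ≤ 1 + δ by linarith)]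
    · have : δ / (1 + δ) ≤ 1 := (div_le_one (by positivity)).2 (by linarith)
      nlinarith [div_nonneg hδ.le (show 0 ≤ 1 + δ by linarith)]
    · apply le_of_eq
      field_simp
      ring
  have j1 := J_tendsto hl0 hl1 (x0 := x0 - θ) (by linarith) (x1 + θ) (y0 - θ) (y1 + θ)
  have j2 := J_tendsto hl0 hl1 (x0 := x0 + θ) (by linarith) (x1 - θ) (y0 + θ) (y1 - θ)
  rw [int_T (by linarith) (by linarith) (by linarith)] at j1 j2
  have k1 := j1.eventually_lt_const (show _ < T x0 x1 y0 y1 + ε by linarith)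
  have k2 := j2.eventually_const_lt (show T x0 x1 y0 y1 - ε < _ by linarith)
  rw [prod_atTop_atTop_eq] at k1 k2
  obtain ⟨⟨n1, n2⟩, hn⟩ := eventually_atTop.1 (k1.and k2)
  refine ⟨max (max n1 n2) 3, fun p q hp hq hpq => ?_⟩
  have hp1 : n1 ≤ p := ((le_max_left _ _).trans (le_max_left _ _)).trans hp
  have hq1 : n2 ≤ q := ((le_max_right _ _).trans (le_max_left _ _)).trans hq
  have hp3 : (3 : ℝ) ≤ p := by exact_mod_cast (le_max_right _ _).trans hp
  have hq3 : (3 : ℝ) ≤ q := by exact_mod_cast (le_max_right _ _).trans hq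
  obtain ⟨g1, g2⟩ := hn (p, q) (Prod.mk_le_mk.2 ⟨hp1, hq1⟩)
  have hh : 0 < |(q : ℝ) - p| := lt_of_lt_of_le (by positivity) hpq
  have hne : p ≠ q := by
    rintro rfl
    simp at hh
  have hW : 0 ≤ ((p : ℝ) / Real.log p) * (q / Real.log q) := by
    have a1 : 0 < Real.log p := Real.log_pos (by linarith)
    have a2 : 0 < Real.log q := Real.log_pos (by linarith)
    positivity
  have hh1 : 1 ≤ |(q : ℝ) - p| := by
    have : (1 : ℤ) ≤ |(q : ℤ) - p| := Int.one_le_abs (sub_ne_zero.2 (by exact_mod_cast hne.symm))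
    exact_mod_cast this
  have hξ : l ≤ l / |(q : ℝ) - p| * |(q : ℝ) - p| := le_of_eq (div_mul_cancel₀ _ hh.ne').symm
  have hξθ : l / |(q : ℝ) - p| ≤ θ := by
    rw [div_le_iff₀ hh]
    nlinarith
  have hη : l + p * (l / |(q : ℝ) - p|) ≤ θ := by
    have : p * (l / |(q : ℝ) - p|) ≤ l / δ := by
      rw [← mul_div_assoc, div_le_div_iff₀ hh hδ]
      have : (p : ℝ) * δ ≤ |(q : ℝ) - p| := by nlinarith
      nlinarith
    linarith
  have u1 := F_le hne hl0 hξ hη (measurable_Bx x0 x1 y0 y1)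
    (measurable_Bx (x0 - θ) (x1 + θ) (y0 - θ) (y1 + θ)) (vol_Bx _ _ _ _) (vol_Bx _ _ _ _)
    (by
      rintro z ⟨⟨a1, a2⟩, a3, a4⟩ v hv1 hv2
      have b1 := abs_le.1 hv1
      have b2 := abs_le.1 hv2
      refine ⟨⟨?_, ?_⟩, ?_, ?_⟩ <;> simp only [Prod.fst_add, Prod.snd_add] <;> linarith)
  have u2 := G_le hne hl0 hξ hη (measurable_Bx (x0 + θ) (x1 - θ) (y0 + θ) (y1 - θ))
    (measurable_Bx x0 x1 y0 y1) (vol_Bx _ _ _ _) (vol_Bx _ _ _ _)
    (by
      rintro z ⟨⟨a1, a2⟩, a3, a4⟩ v hv1 hv2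
      have b1 := abs_le.1 hv1
      have b2 := abs_le.1 hv2
      refine ⟨⟨?_, ?_⟩, ?_, ?_⟩ <;> simp only [Prod.fst_add, Prod.snd_add] <;> linarith)
  have v1 := mul_le_mul_of_nonneg_right u1 hW
  have v2 := mul_le_mul_of_nonneg_right u2 hW
  rw [abs_le]
  unfold I
  constructor <;> linarith

end Pool.Agent.V1193.FS
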