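import Pool.Agent.V1193.LE.A

set_option autoImplicit false

/-! The law of the two largest indices. -/

namespace Pool.Agent.V1193.FS

open Finset Filter Topology MeasureTheory
open Pool.Agent.V1193.LE (T T_nonneg summable_T T_pos T_tendsto average T_anti)

variable {Ω : Type*} [MeasurableSpace Ω] {μ : Measure Ω} [IsFiniteMeasure μ]

lemma real_iUnion {f : ℕ → Set Ω} (hd : Pairwise (Function.onFun Disjoint f))
    (hm : ∀ i, MeasurableSet (f i)) : μ.real (⋃ i, f i) = ∑' i, μ.real (f i) := by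
  unfold Measure.real
  rw [measure_iUnion hd hm, ENNReal.tsum_toReal_eq fun i => measure_ne_top _ _]

lemma real_summable {f : ℕ → Set Ω} (hd : Pairwise (Function.onFun Disjoint f))
    (hm : ∀ i, MeasurableSet (f i)) : Summable fun i => μ.real (f i) := by
  refine ENNReal.summable_toReal ?_
  rw [← measure_iUnion hd hm]
  exact measure_ne_top _ _

/-- the two largest indices are `m` and `n` -/
def Two (S : ℕ → Set Ω) (m n : ℕ) : Set Ω :=
  {y | y ∈ S m ∧ y ∈ S n ∧ ∀ k, m ≤ k → y ∈ S k → k = m ∨ k = n}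

/-- a third index -/
def Bad (S : ℕ → Set Ω) (m n k : ℕ) : Set Ω := {y | k ≠ m ∧ k ≠ n ∧ y ∈ S m ∩ S n ∩ S k}

lemma meas_Bad {S : ℕ → Set Ω} (hS : ∀ m, MeasurableSet (S m)) (m n k : ℕ) :
    MeasurableSet (Bad S m n k) := by
  by_cases h : k ≠ m ∧ k ≠ n
  · have : Bad S m n k = S m ∩ S n ∩ S k := by
      ext y; exact ⟨fun h1 => h1.2.2, fun h1 => ⟨h.1, h.2, h1⟩⟩
    rw [this]
    exact ((hS m).inter (hS n)).inter (hS k)
  · have : Bad S m n k = ∅ := by
      ext y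
      simp only [Set.mem_empty_iff_false, iff_false]
      exact fun h1 => h ⟨h1.1, h1.2.1⟩
    rw [this]
    exact MeasurableSet.empty

lemma Two_eq (S : ℕ → Set Ω) (m n : ℕ) :
    Two S m n = (S m ∩ S n) \ ⋃ j : ℕ, Bad S m n (m + j) := by
  ext y
  constructor
  · rintro ⟨h1, h2, h3⟩
    refine ⟨⟨h1, h2⟩, fun h4 => ?_⟩
    obtain ⟨j, h5, h6, h7⟩ := Set.mem_iUnion.1 h4
    rcases h3 (m + j) (by omega) h7.2 with h8 | h8
    · exact h5 h8
    · exact h6 h8
  · rintro ⟨⟨h1, h2⟩, h3⟩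
    refine ⟨h1, h2, fun k hk hy => ?_⟩
    by_contra h4
    push Not at h4
    refine h3 (Set.mem_iUnion.2 ⟨k - m, ?_⟩)
    rw [show m + (k - m) = k by omega]
    exact ⟨h4.1, h4.2, ⟨h1, h2⟩, hy⟩

lemma meas_Two {S : ℕ → Set Ω} (hS : ∀ m, MeasurableSet (S m)) (m n : ℕ) :
    MeasurableSet (Two S m n) := by
  rw [Two_eq]
  exact ((hS m).inter (hS n)).diff (MeasurableSet.iUnion fun j => meas_Bad hS m n _)

theorem two_law {S : ℕ → Set Ω} (hS : ∀ m, MeasurableSet (S m)) {w : ℕ → ℝ} {L K : ℝ} {N : ℕ}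
    (hw : ∀ p, 0 ≤ w p) (hs : Summable w) (hK : 0 ≤ K)
    (hpair : ∀ ε > 0, ∃ M, ∀ m ≥ M, ∀ n > m,
      |μ.real (S m ∩ S n) - L * (w m * w n)| ≤ ε * (w m * w n))
    (htrip : ∀ m ≥ N, ∀ n > m, ∀ k > m, k ≠ n →
      μ.real (S m ∩ S n ∩ S k) ≤ K * (w m * w n) * w k) :
    ∀ ε > 0, ∃ M, ∀ m ≥ M, ∀ n > m,
      |μ.real (Two S m n) - L * (w m * w n)| ≤ ε * (w m * w n) := by
  intro ε hε
  have h1 : ∀ᶠ p : ℕ in atTop, K * T w p < ε / 2 := by
    have h2 := (T_tendsto (w := w)).const_mul K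
    rw [mul_zero] at h2
    exact h2.eventually_lt_const (by positivity)
  obtain ⟨M1, hM1⟩ := hpair (ε / 2) (by positivity)
  obtain ⟨M2, hM2⟩ := eventually_atTop.1 h1
  refine ⟨max (max M1 M2) N, fun m hm n hn => ?_⟩
  have a1 : M1 ≤ m := ((le_max_left _ _).trans (le_max_left _ _)).trans hm
  have a2 : M2 ≤ m := ((le_max_right _ _).trans (le_max_left _ _)).trans hm
  have a3 : N ≤ m := (le_max_right _ _).trans hm
  have h2 := hM1 m a1 n hn
  have h3 := hM2 m a2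
  have hww : 0 ≤ w m * w n := mul_nonneg (hw m) (hw n)
  have h0 : 0 ≤ K * (w m * w n) := mul_nonneg hK hww
  have hover : μ.real (⋃ j : ℕ, Bad S m n (m + j)) ≤ K * (w m * w n) * T w m := by
    rw [Measure.real]
    refine ENNReal.toReal_le_of_le_ofReal (mul_nonneg h0 (T_nonneg hw _)) ?_
    refine (measure_iUnion_le _).trans ?_
    unfold T
    rw [← tsum_mul_left, ENNReal.ofReal_tsum_of_nonneg (fun k => mul_nonneg h0 (hw _))
      ((summable_T hs m).mul_left _)]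
    refine ENNReal.tsum_le_tsum fun j => ?_
    rw [← ENNReal.ofReal_toReal (measure_ne_top μ (Bad S m n (m + j)))]
    refine ENNReal.ofReal_le_ofReal ?_
    by_cases h : m + j ≠ m ∧ m + j ≠ n
    · have : Bad S m n (m + j) = S m ∩ S n ∩ S (m + j) := by
        ext y; exact ⟨fun h1 => h1.2.2, fun h1 => ⟨h.1, h.2, h1⟩⟩
      rw [this]
      exact htrip m a3 n hn (m + j) (by omega) h.2
    · have : Bad S m n (m + j) = ∅ := by
        ext y
        simp only [Set.mem_empty_iff_false, iff_false]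
        exact fun h1 => h ⟨h1.1, h1.2.1⟩
      rw [this, measure_empty, ENNReal.toReal_zero]
      exact mul_nonneg h0 (hw _)
  have e : μ.real (Two S m n) = μ.real (S m ∩ S n) - μ.real (⋃ j : ℕ, Bad S m n (m + j)) := by
    rw [Two_eq, measureReal_sdiff (Set.iUnion_subset fun j y hy => hy.2.2.1)
      (MeasurableSet.iUnion fun j => meas_Bad hS m n _)]
  have h5 : 0 ≤ μ.real (⋃ j : ℕ, Bad S m n (m + j)) := measureReal_nonneg
  have h6 : K * (w m * w n) * T w m ≤ ε / 2 * (w m * w n) := by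
    calc K * (w m * w n) * T w m = (K * T w m) * (w m * w n) := by ring
      _ ≤ ε / 2 * (w m * w n) := mul_le_mul_of_nonneg_right h3.le hww
  rw [e]
  rw [abs_le] at h2 ⊢
  constructor
  · nlinarith [h2.1]
  · nlinarith [h2.2]

/-- the second largest index is `m` -/
def Sec (S : ℕ → Set Ω) (m : ℕ) : Set Ω := ⋃ j : ℕ, Two S m (m + 1 + j)

lemma meas_Sec {S : ℕ → Set Ω} (hS : ∀ m, MeasurableSet (S m)) (m : ℕ) :
    MeasurableSet (Sec S m) := MeasurableSet.iUnion fun j => meas_Two hS m _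

lemma disj_Two (S : ℕ → Set Ω) (m : ℕ) :
    Pairwise (Function.onFun Disjoint fun j : ℕ => Two S m (m + 1 + j)) := by
  intro i j hij
  refine Set.disjoint_left.2 fun y h1 h2 => ?_
  rcases h1.2.2 (m + 1 + j) (by omega) h2.2.1 with h3 | h3 <;> omega

lemma disj_Sec (S : ℕ → Set Ω) (n : ℕ) :
    Pairwise (Function.onFun Disjoint fun j : ℕ => Sec S (n + j)) := by
  intro i j hij
  refine Set.disjoint_left.2 fun y h1 h2 => ?_
  obtain ⟨a, ha⟩ := Set.mem_iUnion.1 h1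
  obtain ⟨b, hb⟩ := Set.mem_iUnion.1 h2
  rcases Nat.lt_or_gt_of_ne hij with h | h
  · rcases ha.2.2 (n + j) (by omega) hb.1 with h3 | h3
    · omega
    · rcases ha.2.2 (n + j + 1 + b) (by omega) hb.2.1 with h4 | h4 <;> omega
  · rcases hb.2.2 (n + i) (by omega) ha.1 with h3 | h3
    · omega
    · rcases hb.2.2 (n + i + 1 + a) (by omega) ha.2.1 with h4 | h4 <;> omega

theorem sec_law {S : ℕ → Set Ω} (hS : ∀ m, MeasurableSet (S m)) {w : ℕ → ℝ} {L : ℝ}
    (hw : ∀ p, 0 ≤ w p) (hs : Summable w)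
    (htwo : ∀ ε > 0, ∃ M, ∀ m ≥ M, ∀ n > m,
      |μ.real (Two S m n) - L * (w m * w n)| ≤ ε * (w m * w n)) :
    ∀ ε > 0, ∀ᶠ m : ℕ in atTop,
      |μ.real (Sec S m) - L * (w m * T w (m + 1))| ≤ ε * (w m * T w (m + 1)) := by
  intro ε hε
  obtain ⟨M, hM⟩ := htwo ε hε
  filter_upwards [eventually_ge_atTop M] with m hm
  have hs1 := summable_T hs (m + 1)
  have hs2 := real_summable (μ := μ) (disj_Two S m) fun j => meas_Two hS m _
  have e1 : μ.real (Sec S m) = ∑' j : ℕ, μ.real (Two S m (m + 1 + j)) :=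
    real_iUnion (disj_Two S m) fun j => meas_Two hS m _
  have e : μ.real (Sec S m) - L * (w m * T w (m + 1)) =
      ∑' j : ℕ, (μ.real (Two S m (m + 1 + j)) - L * (w m * w (m + 1 + j))) := by
    rw [hs2.tsum_sub ((hs1.mul_left (w m)).mul_left L), tsum_mul_left, tsum_mul_left, e1]
    rfl
  rw [e, ← Real.norm_eq_abs]
  refine tsum_of_norm_bounded (g := fun j => ε * (w m * w (m + 1 + j))) ?_ fun j => ?_
  · exact (hs1.hasSum.mul_left (w m)).mul_left ε
  · rw [Real.norm_eq_abs]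
    exact hM m hm (m + 1 + j) (by omega)

/-- two indices from `n` on -/
theorem tail2 {S : ℕ → Set Ω} (hS : ∀ m, MeasurableSet (S m))
    (hfin : ∀ᵐ y ∂μ, {m | y ∈ S m}.Finite) (n : ℕ) :
    μ.real {y | ∃ p q, n ≤ p ∧ p < q ∧ y ∈ S p ∧ y ∈ S q} =
      T (fun m => μ.real (Sec S m)) n := by
  have e : T (fun m => μ.real (Sec S m)) n = μ.real (⋃ j : ℕ, Sec S (n + j)) :=
    (real_iUnion (disj_Sec S n) fun j => meas_Sec hS _).symm
  rw [e]
  refine measureReal_congr ?_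
  filter_upwards [hfin] with y hy
  refine propext ⟨?_, ?_⟩
  · rintro ⟨p, q, hp, hpq, h1, h2⟩
    set A := hy.toFinset with hA
    have hAm : ∀ k, k ∈ A ↔ y ∈ S k := fun k => hy.mem_toFinset
    have hqA : q ∈ A := (hAm q).2 h2
    set a := A.max' ⟨q, hqA⟩ with ha
    have haA : a ∈ A := A.max'_mem _
    have hqa : q ≤ a := A.le_max' q hqA
    have hpE : p ∈ A.erase a := Finset.mem_erase.2 ⟨by omega, (hAm p).2 h1⟩
    set b := (A.erase a).max' ⟨p, hpE⟩ with hb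
    have hbE : b ∈ A.erase a := (A.erase a).max'_mem _
    have hpb : p ≤ b := (A.erase a).le_max' p hpE
    obtain ⟨hba, hbA⟩ := Finset.mem_erase.1 hbE
    have hba' : b ≤ a := A.le_max' b hbA
    refine Set.mem_iUnion.2 ⟨b - n, Set.mem_iUnion.2 ⟨a - (b + 1), ?_⟩⟩
    rw [show n + (b - n) = b by omega, show b + 1 + (a - (b + 1)) = a by omega]
    refine ⟨(hAm b).1 hbA, (hAm a).1 haA, fun k hk hyk => ?_⟩
    by_cases hka : k = a
    · exact Or.inr hka
    · left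
      have : k ≤ b := (A.erase a).le_max' k (Finset.mem_erase.2 ⟨hka, (hAm k).2 hyk⟩)
      omega
  · intro h
    obtain ⟨j, hj⟩ := Set.mem_iUnion.1 h
    obtain ⟨i, hi⟩ := Set.mem_iUnion.1 hj
    exact ⟨n + j, n + j + 1 + i, by omega, by omega, hi.1, hi.2.1⟩

theorem second {S : ℕ → Set Ω} (hS : ∀ m, MeasurableSet (S m)) {w : ℕ → ℝ} {L : ℝ}
    (hw : ∀ p, 0 < w p) (hs : Summable w) (hfin : ∀ᵐ y ∂μ, {m | y ∈ S m}.Finite)
    (htwo : ∀ ε > 0, ∃ M, ∀ m ≥ M, ∀ n > m,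
      |μ.real (Two S m n) - L * (w m * w n)| ≤ ε * (w m * w n)) :
    Tendsto (fun n => μ.real {y | ∃ p q, n ≤ p ∧ p < q ∧ y ∈ S p ∧ y ∈ S q} /
      T (fun m => w m * T w (m + 1)) n) atTop (𝓝 L) := by
  have hw0 : ∀ p, 0 ≤ w p := fun p => (hw p).le
  have hT : ∀ m, 0 < T w m := fun m => T_pos hw0 hs (fun n => ⟨n, le_rfl, hw n⟩) m
  have hv0 : ∀ m, 0 ≤ w m * T w (m + 1) := fun m => (mul_pos (hw m) (hT _)).le
  have hvs : Summable fun m => w m * T w (m + 1) := by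
    refine Summable.of_nonneg_of_le hv0 (fun m => ?_) (hs.mul_right (T w 0))
    exact mul_le_mul_of_nonneg_left (T_anti hw0 hs (Nat.zero_le _)) (hw0 m)
  have has : Summable fun m => μ.real (Sec S m) := by
    have h := real_summable (μ := μ) (disj_Sec S 0) fun j => meas_Sec hS _
    simpa using h
  refine (average hv0 hvs has (fun n => ⟨n, le_rfl, mul_pos (hw n) (hT _)⟩)
    (sec_law hS hw0 hs htwo)).congr fun n => ?_
  rw [tail2 hS hfin]

end Pool.Agent.V1193.FS
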