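import Pool.Agent.V1193.FS.E
import Pool.Agent.V1193.FS.F

set_option autoImplicit false

/-! The plane of bases and amplitudes: pair and triple correlations. -/

namespace Pool.Agent.V1193.FS

open Finset Filter Topology MeasureTheory
open Pool.Agent.V1193.FM (g g_nonneg g_le_one measurable_g tendsto_P summable_base)
open Pool.Agent.Y122.PC (Bx measurable_Bx vol_Bx integrable_of_bdd)

/-- the events -/
def SS (m : ℕ) : Set (ℝ × ℝ) := {z | m ∈ Q z.1 z.2}

lemma meas_SS (m : ℕ) : MeasurableSet (SS m) := by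
  have h : Measurable fun z : ℝ × ℝ => ⌊Real.exp z.2 * Real.exp z.1 ^ (2 ^ m)⌋₊ :=
    Nat.measurable_floor.comp (by fun_prop)
  exact h (MeasurableSet.of_discrete (s := {n : ℕ |
    (Pool.Agent.H305R2.roughPart (2 ^ (m + 1)) (n + 1)).Prime}))

/-- the mass of a finite intersection -/
lemma real_inter {x0 x1 y0 y1 : ℝ} (hx0 : 0 < x0) (J : Finset ℕ) :
    (volume.restrict (Bx x0 x1 y0 y1)).real {z | ∀ m ∈ J, z ∈ SS m} =
      ∫ x in Set.Ioc x0 x1, ∫ y in Set.Ioc y0 y1, ∏ m ∈ J, fm x m y := by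
  classical
  set A : Set (ℝ × ℝ) := {z | ∀ m ∈ J, z ∈ SS m} with hA
  have hm : MeasurableSet A := by
    have : A = ⋂ m ∈ J, SS m := by
      ext y; simp [hA]
    rw [this]
    exact Finset.measurableSet_biInter J fun m _ => meas_SS m
  have e : (volume.restrict (Bx x0 x1 y0 y1)).real A =
      ∫ z in Bx x0 x1 y0 y1, A.indicator (fun _ => (1 : ℝ)) z := by
    rw [integral_indicator_const _ hm, smul_eq_mul, mul_one]
  rw [e]
  unfold Bx
  rw [Measure.volume_eq_prod, setIntegral_prod]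
  · refine setIntegral_congr_fun measurableSet_Ioc fun x hx => ?_
    have hx' : 0 < x := hx0.trans hx.1
    refine setIntegral_congr_ae measurableSet_Ioc ?_
    filter_upwards [ae_gen hx'] with y hy _
    have e2 : ∏ m ∈ J, fm x m y = ∏ m ∈ J, if m ∈ Q x y then (1 : ℝ) else 0 :=
      Finset.prod_congr rfl fun m _ => fm_eq hy m
    rw [e2]
    by_cases hall : ∀ m ∈ J, m ∈ Q x y
    · rw [Set.indicator_of_mem (show (x, y) ∈ A from hall)]
      symm
      exact Finset.prod_eq_one fun m hm => if_pos (hall m hm)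
    · rw [Set.indicator_of_notMem (show (x, y) ∉ A from hall)]
      push Not at hall
      obtain ⟨m, hm1, hm2⟩ := hall
      symm
      exact Finset.prod_eq_zero hm1 (if_neg hm2)
  · rw [← Measure.volume_eq_prod]
    have := measurable_Bx x0 x1 y0 y1
    exact ((integrable_const (1 : ℝ)).indicator hm : Integrable _ (volume.restrict (Bx x0 x1 y0 y1)))

/-- upper bounds of any order -/
lemma real_bound {x0 x1 y0 y1 : ℝ} (hx0 : 0 < x0) (hx : x0 < x1) (hy : y0 < y1) :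
    ∃ C : ℝ, 1 ≤ C ∧ ∃ M0 : ℕ, ∀ J : Finset ℕ, (∀ m ∈ J, M0 ≤ m) →
      (volume.restrict (Bx x0 x1 y0 y1)).real {z | ∀ m ∈ J, z ∈ SS m} ≤
        (x1 - x0) * ((y1 - y0) * ∏ m ∈ J, (C * w m)) := by
  obtain ⟨C, hC, M0, h⟩ := corr hx0 hy
  refine ⟨C, hC, M0, fun J hJ => ?_⟩
  rw [real_inter hx0]
  have h1 : ∫ x in Set.Ioc x0 x1, ∫ y in Set.Ioc y0 y1, ∏ m ∈ J, fm x m y ≤
      ∫ _x in Set.Ioc x0 x1, (y1 - y0) * ∏ m ∈ J, (C * w m) := by
    refine integral_mono_of_nonneg (Eventually.of_forall fun x => ?_) (integrable_const _) ?_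
    · exact integral_nonneg fun y => Finset.prod_nonneg fun m _ => fm_nonneg _ _ _
    · filter_upwards [ae_restrict_mem measurableSet_Ioc] with x hx'
      exact h x hx'.1.le J hJ
  rw [setIntegral_const, smul_eq_mul, Real.volume_real_Ioc_of_le hx.le] at h1
  exact h1

lemma real_pair {x0 x1 y0 y1 : ℝ} (hx0 : 0 < x0) {m n : ℕ} (hmn : m ≠ n) (hx : x0 ≤ x1) :
    (volume.restrict (Bx x0 x1 y0 y1)).real (SS m ∩ SS n) =
      2 * I (x0 / 2) (x1 / 2) y0 y1 (2 ^ (m + 1)) (2 ^ (n + 1)) := by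
  have e1 : SS m ∩ SS n = {z | ∀ k ∈ ({m, n} : Finset ℕ), z ∈ SS k} := by
    ext z; simp
  rw [e1, real_inter hx0]
  set φ : ℝ → ℝ := fun t => ∫ y in Set.Ioc y0 y1,
    F (2 ^ (m + 1)) (2 ^ (n + 1)) (t, y) with hφ
  have e2 : ∫ x in Set.Ioc x0 x1, ∫ y in Set.Ioc y0 y1, ∏ k ∈ ({m, n} : Finset ℕ), fm x k y =
      ∫ x in Set.Ioc x0 x1, φ (x / 2) := by
    refine setIntegral_congr_fun measurableSet_Ioc fun x _ => ?_
    refine setIntegral_congr_fun measurableSet_Ioc fun y _ => ?_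
    rw [Finset.prod_pair hmn]
    unfold F fm
    have a1 : ((2 ^ (m + 1) : ℕ) : ℝ) * (x / 2) + y = y + 2 ^ m * x := by push_cast; ring
    have a2 : ((2 ^ (n + 1) : ℕ) : ℝ) * (x / 2) + y = y + 2 ^ n * x := by push_cast; ring
    rw [a1, a2]
  rw [e2, ← intervalIntegral.integral_of_le hx, intervalIntegral.integral_comp_div _ two_ne_zero,
    smul_eq_mul, intervalIntegral.integral_of_le (by linarith)]
  congr 1
  unfold I Bx
  rw [Measure.volume_eq_prod, setIntegral_prod]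
  rw [← Measure.volume_eq_prod]
  exact (integrable_of_bdd (μ := volume.restrict (Bx (x0 / 2) (x1 / 2) y0 y1))
    (measurable_F _ _) (F_nonneg _ _) (F_le_one _ _))

/-- the constant of the pair law -/
noncomputable def Lc (x0 x1 y0 y1 : ℝ) : ℝ :=
  Real.exp Real.eulerMascheroniConstant ^ 2 * Real.log 2 ^ 2 * (1 / x0 - 1 / x1) * (y1 - y0)

lemma log_P (m : ℕ) : Real.log ((2 ^ (m + 1) : ℕ) : ℝ) / ((2 ^ (m + 1) : ℕ) : ℝ) =
    Real.log 2 / 2 * w m := by
  unfold w
  push_cast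
  rw [Real.log_pow]
  push_cast
  rw [pow_succ]
  field_simp

theorem pair_law {x0 x1 y0 y1 : ℝ} (hx0 : 0 < x0) (hx : x0 < x1) (hy : y0 < y1) :
    ∀ ε > 0, ∃ M, ∀ m ≥ M, ∀ n > m, |(volume.restrict (Bx x0 x1 y0 y1)).real (SS m ∩ SS n) -
      Lc x0 x1 y0 y1 * (w m * w n)| ≤ ε * (w m * w n) := by
  intro ε hε
  have hl2 : 0 < Real.log 2 := Real.log_pos (by norm_num)
  obtain ⟨N, hN⟩ := far (x0 := x0 / 2) (x1 := x1 / 2) (y0 := y0) (y1 := y1) (by positivity)
    (by linarith) hy (ε := ε / (Real.log 2 ^ 2 / 2)) (δ := 1 / 3) (by positivity) (by norm_num)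
  obtain ⟨M, hM⟩ := eventually_atTop.1 (tendsto_P.eventually_ge_atTop N)
  refine ⟨M, fun m hm n hn => ?_⟩
  set p := 2 ^ (m + 1) with hp
  set q := 2 ^ (n + 1) with hq
  have hpq : 2 * p ≤ q := by
    rw [hp, hq, ← pow_succ']
    exact Nat.pow_le_pow_right (by norm_num) (by omega)
  have hpq' : 2 * (p : ℝ) ≤ q := by exact_mod_cast hpq
  have hp0 : (0 : ℝ) < p := by rw [hp]; positivity
  have hq0 : (0 : ℝ) < q := by rw [hq]; positivity
  have h := hN p q (hM m hm) (hM n (by omega)) (by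
    rw [abs_of_nonneg (by linarith)]; linarith)
  rw [real_pair hx0 (by omega) hx.le]
  rw [← hp, ← hq]
  have hw1 := w_pos m
  have hw2 := w_pos n
  have ep : (p : ℝ) / Real.log p = (Real.log 2 / 2 * w m)⁻¹ := by
    rw [← log_P m, inv_div]
  have eq : (q : ℝ) / Real.log q = (Real.log 2 / 2 * w n)⁻¹ := by
    rw [← log_P n, inv_div]
  rw [ep, eq] at h
  set J := I (x0 / 2) (x1 / 2) y0 y1 p q with hJ
  have e : 2 * J - Lc x0 x1 y0 y1 * (w m * w n) =
      (J * ((Real.log 2 / 2 * w m)⁻¹ * (Real.log 2 / 2 * w n)⁻¹) -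
        Pool.Agent.Y122.PC.T (x0 / 2) (x1 / 2) y0 y1) * (Real.log 2 ^ 2 / 2 * (w m * w n)) := by
    unfold Lc Pool.Agent.Y122.PC.T Pool.Agent.Y122.PC.eg
    have hx1 : x1 ≠ 0 := by linarith
    field_simp
  rw [e, abs_mul, abs_of_pos (show 0 < Real.log 2 ^ 2 / 2 * (w m * w n) by positivity)]
  calc _ ≤ ε / (Real.log 2 ^ 2 / 2) * (Real.log 2 ^ 2 / 2 * (w m * w n)) :=
        mul_le_mul_of_nonneg_right h (by positivity)
    _ = ε * (w m * w n) := by field_simp

theorem trip_law {x0 x1 y0 y1 : ℝ} (hx0 : 0 < x0) (hx : x0 < x1) (hy : y0 < y1) :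
    ∃ K : ℝ, 0 ≤ K ∧ ∃ N : ℕ, ∀ m ≥ N, ∀ n > m, ∀ k > m, k ≠ n →
      (volume.restrict (Bx x0 x1 y0 y1)).real (SS m ∩ SS n ∩ SS k) ≤ K * (w m * w n) * w k := by
  obtain ⟨C, hC, M0, h⟩ := real_bound (y0 := y0) (y1 := y1) hx0 hx hy
  have h1 : 0 < x1 - x0 := by linarith
  have h2 : 0 < y1 - y0 := by linarith
  refine ⟨(x1 - x0) * (y1 - y0) * C ^ 3, by positivity, M0, fun m hm n hn k hk hkn => ?_⟩
  have e : SS m ∩ SS n ∩ SS k = {z | ∀ j ∈ ({m, n, k} : Finset ℕ), z ∈ SS j} := by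
    ext z
    simp only [Set.mem_inter_iff, Set.mem_ofPred_eq, Finset.mem_insert, Finset.mem_singleton,
      forall_eq_or_imp, forall_eq]
    tauto
  rw [e]
  refine (h {m, n, k} ?_).trans (le_of_eq ?_)
  · intro j hj
    simp only [Finset.mem_insert, Finset.mem_singleton] at hj
    rcases hj with rfl | rfl | rfl <;> omega
  · rw [Finset.prod_insert (by simp only [Finset.mem_insert, Finset.mem_singleton]; omega),
      Finset.prod_pair (by omega)]
    ring

lemma summable_w : Summable w := summable_base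

lemma summable_SS {x0 x1 y0 y1 : ℝ} (hx0 : 0 < x0) (hx : x0 < x1) (hy : y0 < y1) :
    Summable fun m => (volume.restrict (Bx x0 x1 y0 y1)).real (SS m) := by
  obtain ⟨C, hC, M0, h⟩ := real_bound (y0 := y0) (y1 := y1) hx0 hx hy
  refine Summable.of_norm_bounded_eventually_nat
    (g := fun m => (x1 - x0) * ((y1 - y0) * (C * w m)))
    (((summable_w.mul_left C).mul_left _).mul_left _) ?_
  filter_upwards [eventually_ge_atTop M0] with m hm
  rw [Real.norm_of_nonneg measureReal_nonneg]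
  have e : SS m = {z | ∀ j ∈ ({m} : Finset ℕ), z ∈ SS j} := by
    ext z; simp
  have h1 := h {m} (by simpa using hm)
  rw [← e, Finset.prod_singleton] at h1
  exact h1

end Pool.Agent.V1193.FS
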