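import Pool.Agent.V1193.FS.G

set_option autoImplicit false

/-! Assembly. -/

namespace Pool.Agent.V1193.FS

open Finset Filter Topology MeasureTheory
open Pool.Agent.V1193.LE (T T_nonneg summable_T T_pos T_tendsto average T_anti)
open Pool.Agent.Y122.PC (Bx measurable_Bx vol_Bx)

lemma tsum_tele {a F : ℕ → ℝ} (ha : ∀ n, 0 ≤ a n) (h : ∀ n, a n = F n - F (n + 1))
    (hF : Tendsto F atTop (𝓝 0)) (n : ℕ) : T a n = F n := by
  have hs : ∀ j, ∑ i ∈ range j, a (n + i) = F n - F (n + j) := by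
    intro j
    induction j with
    | zero => simp
    | succ j ih =>
      rw [Finset.sum_range_succ, ih, h (n + j)]
      rw [show n + (j + 1) = n + j + 1 by omega]
      ring
  have ht : Tendsto (fun j => ∑ i ∈ range j, a (n + i)) atTop (𝓝 (F n)) := by
    have h1 : Tendsto (fun j => F (n + j)) atTop (𝓝 0) := by
      refine (hF.comp (tendsto_add_atTop_nat n)).congr fun j => ?_
      simp only [Function.comp]
      rw [add_comm]
    have h2 := h1.const_sub (F n)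
    rw [sub_zero] at h2
    exact h2.congr fun j => (hs j).symm
  exact ((hasSum_iff_tendsto_nat_of_nonneg (fun i => ha _) _).2 ht).tsum_eq

lemma tends1 : Tendsto (fun n : ℕ => (n : ℝ) / 2 ^ n) atTop (𝓝 0) := by
  have h := tendsto_pow_const_div_const_pow_of_one_lt 1 (show (1 : ℝ) < 2 by norm_num)
  simpa using h

lemma tends0 (c : ℝ) (hc : 1 < c) : Tendsto (fun n : ℕ => 1 / c ^ n) atTop (𝓝 0) := by
  have h := tendsto_pow_const_div_const_pow_of_one_lt 0 hc
  simpa using h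

lemma T_w (n : ℕ) : T w n = (2 * (n : ℝ) + 4) / 2 ^ n := by
  refine tsum_tele (F := fun n : ℕ => (2 * (n : ℝ) + 4) / 2 ^ n) (fun n => (w_pos n).le)
    (fun n => ?_) ?_ n
  · unfold w
    push_cast
    rw [pow_succ]
    field_simp
    ring
  · have h := (tends1.const_mul 2).add ((tends0 2 (by norm_num)).const_mul 4)
    simp only [mul_zero, add_zero] at h
    refine h.congr fun n => ?_
    field_simp

/-- the double tail sum -/
lemma T_v (n : ℕ) : T (fun m => w m * T w (m + 1)) n =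
    (4 / 3 * (n : ℝ) ^ 2 + 56 / 9 * n + 176 / 27) / 4 ^ n := by
  refine tsum_tele (F := fun n : ℕ => (4 / 3 * (n : ℝ) ^ 2 + 56 / 9 * n + 176 / 27) / 4 ^ n)
    (fun n => ?_) (fun n => ?_) ?_ n
  · rw [T_w]
    have := w_pos n
    positivity
  · rw [T_w]
    unfold w
    have h4 : (4 : ℝ) ^ n = 2 ^ n * 2 ^ n := by
      rw [← mul_pow]; norm_num
    have h4' : (4 : ℝ) ^ (n + 1) = 4 * (2 ^ n * 2 ^ n) := by
      rw [pow_succ, h4]; ring
    have h2' : (2 : ℝ) ^ (n + 1) = 2 * 2 ^ n := by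
      rw [pow_succ]; ring
    push_cast
    rw [h2', h4', h4]
    field_simp
    ring
  · have h2 := tendsto_pow_const_div_const_pow_of_one_lt 2 (show (1 : ℝ) < 4 by norm_num)
    have h1 := tendsto_pow_const_div_const_pow_of_one_lt 1 (show (1 : ℝ) < 4 by norm_num)
    have h0 := tendsto_pow_const_div_const_pow_of_one_lt 0 (show (1 : ℝ) < 4 by norm_num)
    have h := ((h2.const_mul (4 / 3)).add (h1.const_mul (56 / 9))).add (h0.const_mul (176 / 27))
    simp only [mul_zero, add_zero] at h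
    refine h.congr fun n => ?_
    rw [pow_one, pow_zero]
    ring

lemma ratio {a b : ℝ} : Tendsto (fun n : ℕ => (4 / 3 * (n : ℝ) ^ 2 + a * n + b) /
    ((n : ℝ) + 1) ^ 2) atTop (𝓝 (4 / 3)) := by
  have h0 : Tendsto (fun n : ℕ => 1 / ((n : ℝ) + 1)) atTop (𝓝 0) :=
    tendsto_one_div_add_atTop_nhds_zero_nat
  have h := ((h0.const_mul (a - 8 / 3)).add ((h0.mul h0).const_mul (4 / 3 - a + b))).const_add (4 / 3)
  simp only [mul_zero, add_zero] at h
  refine h.congr fun n => ?_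
  have : (0 : ℝ) < (n : ℝ) + 1 := by positivity
  field_simp
  ring

theorem laws {x0 x1 y0 y1 : ℝ} (hx0 : 0 < x0) (hx : x0 < x1) (hy : y0 < y1) :
    (∀ ε : ℝ, 0 < ε → ∃ M : ℕ, ∀ m n : ℕ, M ≤ m → m < n →
      |(2 ^ m / ((m : ℝ) + 1)) * (2 ^ n / ((n : ℝ) + 1)) *
        volume.real {z ∈ Set.Ioc x0 x1 ×ˢ Set.Ioc y0 y1 |
          IsGreatest (Q z.1 z.2) n ∧ IsGreatest (Q z.1 z.2 \ {n}) m} -
        Lc x0 x1 y0 y1| ≤ ε) ∧
    Tendsto (fun m : ℕ => (4 ^ m / ((m : ℝ) + 1) ^ 2) *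
      volume.real {z ∈ Set.Ioc x0 x1 ×ˢ Set.Ioc y0 y1 |
        ∃ n, IsGreatest (Q z.1 z.2) n ∧ IsGreatest (Q z.1 z.2 \ {n}) m}) atTop
      (𝓝 (Lc x0 x1 y0 y1)) ∧
    Tendsto (fun m : ℕ => (4 ^ m / ((m : ℝ) + 1) ^ 2) *
      volume.real {z ∈ Set.Ioc x0 x1 ×ˢ Set.Ioc y0 y1 |
        ∃ p ∈ Q z.1 z.2, ∃ q ∈ Q z.1 z.2, m ≤ p ∧ p < q}) atTop
      (𝓝 (4 / 3 * Lc x0 x1 y0 y1)) := by
  set μ := (volume : Measure (ℝ × ℝ)).restrict (Bx x0 x1 y0 y1) with hμ
  obtain ⟨K, hK, N, htrip⟩ := trip_law (y0 := y0) (y1 := y1) hx0 hx hy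
  have hw0 : ∀ p, 0 ≤ w p := fun p => (w_pos p).le
  have htwo := two_law (μ := μ) meas_SS hw0 summable_w hK (pair_law hx0 hx hy) htrip
  have hfin : ∀ᵐ z ∂μ, {m | z ∈ SS m}.Finite :=
    Pool.Agent.V1193.LE.fin (summable_SS hx0 hx hy)
  have hvol : ∀ A : Set (ℝ × ℝ), μ.real A =
      volume.real {z | z ∈ Set.Ioc x0 x1 ×ˢ Set.Ioc y0 y1 ∧ z ∈ A} := by
    intro A
    rw [hμ, measureReal_restrict_apply' (measurable_Bx _ _ _ _)]
    congr 1
    ext z
    exact and_comm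
  have hset : ∀ m n : ℕ, m < n → ∀ z : ℝ × ℝ, z ∈ Two SS m n ↔
      (IsGreatest (Q z.1 z.2) n ∧ IsGreatest (Q z.1 z.2 \ {n}) m) := by
    intro m n hmn z
    constructor
    · rintro ⟨h1, h2, h3⟩
      refine ⟨⟨h2, fun k hk => ?_⟩, ⟨h1, fun h => ?_⟩, fun k hk => ?_⟩
      · rcases le_or_gt m k with h4 | h4
        · rcases h3 k h4 hk with h5 | h5 <;> omega
        · omega
      · exact absurd h (by simpa using hmn.ne)
      · rcases le_or_gt m k with h4 | h4
        · rcases h3 k h4 hk.1 with h5 | h5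
          · omega
          · exact absurd h5 hk.2
        · omega
    · rintro ⟨h1, h2⟩
      refine ⟨h2.1.1, h1.1, fun k hk hyk => ?_⟩
      by_cases hkn : k = n
      · exact Or.inr hkn
      · left
        have := h2.2 (show k ∈ Q z.1 z.2 \ {n} from ⟨hyk, hkn⟩)
        omega
  have hpow : ∀ m : ℕ, (2 : ℝ) ^ m / ((m : ℝ) + 1) = (w m)⁻¹ := by
    intro m; unfold w; rw [inv_div]
  refine ⟨?_, ?_, ?_⟩
  · intro ε hε
    obtain ⟨M, hM⟩ := htwo ε hε
    refine ⟨M, fun m n hm hn => ?_⟩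
    have h := hM m hm n hn
    have e : μ.real (Two SS m n) = volume.real {z | z ∈ Set.Ioc x0 x1 ×ˢ Set.Ioc y0 y1 ∧
        (IsGreatest (Q z.1 z.2) n ∧ IsGreatest (Q z.1 z.2 \ {n}) m)} := by
      rw [hvol]
      congr 1
      ext z
      exact and_congr_right fun _ => hset m n hn z
    rw [e] at h
    have hw1 := w_pos m
    have hw2 := w_pos n
    rw [hpow, hpow]
    set V := volume.real {z | z ∈ Set.Ioc x0 x1 ×ˢ Set.Ioc y0 y1 ∧
        (IsGreatest (Q z.1 z.2) n ∧ IsGreatest (Q z.1 z.2 \ {n}) m)} with hV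
    have e2 : (w m)⁻¹ * (w n)⁻¹ * V - Lc x0 x1 y0 y1 =
        (V - Lc x0 x1 y0 y1 * (w m * w n)) / (w m * w n) := by
      field_simp
    rw [e2, abs_div, abs_of_pos (show 0 < w m * w n by positivity), div_le_iff₀ (by positivity)]
    exact h
  · have hsec := sec_law (μ := μ) meas_SS hw0 summable_w htwo
    have hsetS : ∀ m : ℕ, ∀ z : ℝ × ℝ, z ∈ Sec SS m ↔
        ∃ n, IsGreatest (Q z.1 z.2) n ∧ IsGreatest (Q z.1 z.2 \ {n}) m := by
      intro m z
      constructor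
      · intro h
        obtain ⟨j, hj⟩ := Set.mem_iUnion.1 h
        exact ⟨m + 1 + j, (hset m (m + 1 + j) (by omega) z).1 hj⟩
      · rintro ⟨n, h1, h2⟩
        have hne : m ≠ n := fun h => h2.1.2 h
        have hle : m ≤ n := h1.2 h2.1.1
        refine Set.mem_iUnion.2 ⟨n - (m + 1), ?_⟩
        rw [show m + 1 + (n - (m + 1)) = n by omega]
        exact (hset m n (by omega) z).2 ⟨h1, h2⟩
    have hT : ∀ m, 0 < T w m := fun m => T_pos hw0 summable_w (fun n => ⟨n, le_rfl, w_pos n⟩) m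
    -- divide by the exact weight
    have h1 : Tendsto (fun m : ℕ => μ.real (Sec SS m) / (w m * T w (m + 1))) atTop
        (𝓝 (Lc x0 x1 y0 y1)) := by
      rw [Metric.tendsto_nhds]
      intro ε hε
      filter_upwards [hsec (ε / 2) (by positivity)] with m hm
      have hpos : 0 < w m * T w (m + 1) := mul_pos (w_pos m) (hT _)
      rw [Real.dist_eq]
      have e : μ.real (Sec SS m) / (w m * T w (m + 1)) - Lc x0 x1 y0 y1 =
          (μ.real (Sec SS m) - Lc x0 x1 y0 y1 * (w m * T w (m + 1))) / (w m * T w (m + 1)) := by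
        rw [sub_div, mul_div_assoc (Lc x0 x1 y0 y1), div_self hpos.ne', mul_one]
      rw [e, abs_div, abs_of_pos hpos, div_lt_iff₀ hpos]
      nlinarith
    have h2 : Tendsto (fun m : ℕ => ((m : ℝ) + 3) / ((m : ℝ) + 1)) atTop (𝓝 1) := by
      have h3 := (tendsto_one_div_add_atTop_nhds_zero_nat (𝕜 := ℝ)).const_mul 2
      have h4 := h3.const_add 1
      simp only [mul_zero, add_zero] at h4
      refine h4.congr fun m => ?_
      field_simp
      ring
    have h3 := h1.mul h2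
    rw [mul_one] at h3
    refine h3.congr fun m => ?_
    have e : μ.real (Sec SS m) = volume.real {z | z ∈ Set.Ioc x0 x1 ×ˢ Set.Ioc y0 y1 ∧
        ∃ n, IsGreatest (Q z.1 z.2) n ∧ IsGreatest (Q z.1 z.2 \ {n}) m} := by
      rw [hvol]
      congr 1
      ext z
      exact and_congr_right fun _ => hsetS m z
    rw [e, T_w]
    unfold w
    have h4 : (4 : ℝ) ^ m = 2 ^ m * 2 ^ m := by
      rw [← mul_pow]; norm_num
    rw [h4]
    push_cast
    rw [pow_succ]
    field_simp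
    ring
  · have h1 := second (μ := μ) meas_SS w_pos summable_w hfin htwo
    have h2 := h1.mul (ratio (a := 56 / 9) (b := 176 / 27))
    rw [mul_comm (Lc x0 x1 y0 y1)] at h2
    refine h2.congr fun n => ?_
    rw [T_v]
    have e : μ.real {y | ∃ p q, n ≤ p ∧ p < q ∧ y ∈ SS p ∧ y ∈ SS q} =
        volume.real {z | z ∈ Set.Ioc x0 x1 ×ˢ Set.Ioc y0 y1 ∧
          ∃ p ∈ Q z.1 z.2, ∃ q ∈ Q z.1 z.2, n ≤ p ∧ p < q} := by
      rw [hvol]
      congr 1
      ext z
      refine and_congr_right fun _ => ?_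
      constructor
      · rintro ⟨p, q, h1, h2, h3, h4⟩
        exact ⟨p, h3, q, h4, h1, h2⟩
      · rintro ⟨p, h3, q, h4, h1, h2⟩
        exact ⟨p, q, h1, h2, h3, h4⟩
    rw [e]
    have hp : (0 : ℝ) < 4 / 3 * (n : ℝ) ^ 2 + 56 / 9 * n + 176 / 27 := by positivity
    field_simp

end Pool.Agent.V1193.FS
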